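import Mathlib

set_option autoImplicit false

/-!
# Monodromy of a covering over a terminating confluent rewriting system is trivial
-/

namespace Pool.Agent.Helper9.RW

open Relation

/-- One rewriting step on words. -/
def Step {A : Type*} (R : Set (List A × List A)) (u v : List A) : Prop :=
  ∃ s l r t, (l, r) ∈ R ∧ u = s ++ l ++ t ∧ v = s ++ r ++ t

/-- Newman's lemma. -/
theorem newman {X : Type*} {r : X → X → Prop} (hw : WellFounded (fun y x => r x y))
    (hl : ∀ a b c, r a b → r a c → ∃ d, ReflTransGen r b d ∧ ReflTransGen r c d) :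
    ∀ a b c, ReflTransGen r a b → ReflTransGen r a c → ∃ d, ReflTransGen r b d ∧ ReflTransGen r c d := by
  intro a
  induction a using hw.induction with
  | _ a ih =>
    intro b c hb hc
    rcases ReflTransGen.cases_head hb with rfl | ⟨b1, hb1, hb2⟩
    · exact ⟨c, hc, .refl⟩
    rcases ReflTransGen.cases_head hc with rfl | ⟨c1, hc1, hc2⟩
    · exact ⟨b, .refl, hb⟩
    obtain ⟨d, hd1, hd2⟩ := hl a b1 c1 hb1 hc1
    obtain ⟨e, he1, he2⟩ := ih b1 hb1 b d hb2 hd1
    obtain ⟨f, hf1, hf2⟩ := ih c1 hc1 c d hc2 hd2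
    obtain ⟨g, hg1, hg2⟩ := ih b1 hb1 e f (hd1.trans he2) (hd1.trans hf2)
    exact ⟨g, he1.trans hg1, hf1.trans hg2⟩

/-- Church–Rosser from Newman. -/
theorem join_of_eqvGen {X : Type*} {r : X → X → Prop} (hw : WellFounded (fun y x => r x y))
    (hl : ∀ a b c, r a b → r a c → ∃ d, ReflTransGen r b d ∧ ReflTransGen r c d) {a b : X}
    (h : EqvGen r a b) : ∃ d, ReflTransGen r a d ∧ ReflTransGen r b d := by
  induction h with
  | rel x y h => exact ⟨y, .single h, .refl⟩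
  | refl x => exact ⟨x, .refl, .refl⟩
  | symm x y _ ih => obtain ⟨d, h1, h2⟩ := ih; exact ⟨d, h2, h1⟩
  | trans x y z _ _ ih1 ih2 =>
    obtain ⟨d, h1, h2⟩ := ih1
    obtain ⟨e, h3, h4⟩ := ih2
    obtain ⟨f, h5, h6⟩ := newman hw hl y d e h2 h3
    exact ⟨f, h1.trans h5, h4.trans h6⟩

/-- The data of a covering of the cuts of words. -/
structure Cov {A : Type*} (R : Set (List A × List A)) (V : Type*) where
  /-- words considered -/
  K : Set (List A)
  /-- good prefixes -/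
  good : List A → Prop
  /-- labels at a prefix -/
  T : List A → Set V
  /-- transport -/
  act : V → List A → V
  act_nil : ∀ γ, act γ [] = γ
  act_append : ∀ γ x y, act γ (x ++ y) = act (act γ x) y
  K_step : ∀ w w', Step R w w' → (w ∈ K ↔ w' ∈ K)
  good_step : ∀ p p', Step R p p' → (good p ↔ good p')
  T_step : ∀ p p', Step R p p' → T p = T p'
  act_step : ∀ z z', Step R z z' → ∀ γ, act γ z = act γ z'
  T_maps : ∀ p z, good p → good (p ++ z) → ∀ γ ∈ T p, act γ z ∈ T (p ++ z)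
  T_inj : ∀ p z, good p → good (p ++ z) → ∀ γ ∈ T p, ∀ γ' ∈ T p, act γ z = act γ' z → γ = γ'
  T_surj : ∀ p z, good p → good (p ++ z) → ∀ δ ∈ T (p ++ z), ∃ γ ∈ T p, act γ z = δ
  hcut : ∀ s l r t s' l' r' t', (l, r) ∈ R → (l', r') ∈ R → s ++ l ++ t ∈ K →
    s ++ l ++ t = s' ++ l' ++ t' → ∃ p q, s ++ l ++ t = p ++ q ∧ good p ∧
      ((∃ a, s = p ++ a ∧ q = a ++ l ++ t) ∨ (∃ b, p = s ++ l ++ b ∧ t = b ++ q)) ∧
      ((∃ a, s' = p ++ a ∧ q = a ++ l' ++ t') ∨ (∃ b, p = s' ++ l' ++ b ∧ t' = b ++ q))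

variable {A : Type*} {R : Set (List A × List A)} {V : Type*} (D : Cov R V)

/-- Labelled cut words. -/
structure Obj where
  p : List A
  q : List A
  γ : V
  mem : p ++ q ∈ D.K
  good : D.good p
  mT : γ ∈ D.T p

variable {D}

/-- two labelled cuts of the same word correspond -/
def Le (x y : Obj D) : Prop := ∃ z, y.p = x.p ++ z ∧ x.q = z ++ y.q ∧ y.γ = D.act x.γ z

def Heq (x y : Obj D) : Prop := Le x y ∨ Le y x

theorem Le.refl (x : Obj D) : Le x x := ⟨[], by simp, by simp, by rw [D.act_nil]⟩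

theorem Le.trans {x y z : Obj D} (h1 : Le x y) (h2 : Le y z) : Le x z := by
  obtain ⟨a, a1, a2, a3⟩ := h1
  obtain ⟨b, b1, b2, b3⟩ := h2
  exact ⟨a ++ b, by rw [b1, a1, List.append_assoc], by rw [a2, b2, List.append_assoc],
    by rw [b3, a3, D.act_append]⟩

theorem Obj.ext' {x y : Obj D} (h1 : x.p = y.p) (h2 : x.q = y.q) (h3 : x.γ = y.γ) : x = y := by
  cases x; cases y; simp only at h1 h2 h3; subst h1 h2 h3; rfl

theorem heq_of_up {x y w : Obj D} (h1 : Le x y) (h2 : Le w y) : Heq x w := by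
  obtain ⟨a, a1, a2, a3⟩ := h1
  obtain ⟨b, b1, b2, b3⟩ := h2
  rw [a1] at b1
  rcases List.append_eq_append_iff.1 b1 with ⟨c, c1, c2⟩ | ⟨c, c1, c2⟩
  · -- w.p = x.p ++ c, a = c ++ b
    left
    refine ⟨c, c1, by rw [a2, b2, c2, List.append_assoc], ?_⟩
    rw [c2, D.act_append, b3] at a3
    have hg : D.good (w.p ++ b) := by rw [c1, List.append_assoc, ← c2, ← a1]; exact y.good
    have hx : D.act x.γ c ∈ D.T w.p := by
      rw [c1]; exact D.T_maps _ _ x.good (by rw [← c1]; exact w.good) _ x.mT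
    exact D.T_inj w.p b w.good hg _ w.mT _ hx a3
  · -- x.p = w.p ++ c, b = c ++ a
    right
    refine ⟨c, c1, by rw [a2, b2, c2, List.append_assoc], ?_⟩
    rw [c2, D.act_append, a3] at b3
    have hg : D.good (x.p ++ a) := by rw [← a1]; exact y.good
    have hx : D.act w.γ c ∈ D.T x.p := by
      rw [c1]; exact D.T_maps _ _ w.good (by rw [← c1]; exact x.good) _ w.mT
    exact D.T_inj x.p a x.good hg _ x.mT _ hx b3

theorem heq_of_down {x y w : Obj D} (h1 : Le y x) (h2 : Le y w) : Heq x w := by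
  obtain ⟨a, a1, a2, a3⟩ := h1
  obtain ⟨b, b1, b2, b3⟩ := h2
  rw [a2] at b2
  rcases List.append_eq_append_iff.1 b2 with ⟨c, c1, c2⟩ | ⟨c, c1, c2⟩
  · -- b = a ++ c, x.q = c ++ w.q
    left
    exact ⟨c, by rw [b1, a1, c1, List.append_assoc], c2, by rw [b3, a3, c1, D.act_append]⟩
  · right
    exact ⟨c, by rw [b1, a1, c1, List.append_assoc], c2, by rw [b3, a3, c1, D.act_append]⟩

theorem Heq.symm {x y : Obj D} (h : Heq x y) : Heq y x := Or.symm h

theorem Heq.trans {x y w : Obj D} (h1 : Heq x y) (h2 : Heq y w) : Heq x w := by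
  rcases h1 with h1 | h1 <;> rcases h2 with h2 | h2
  · exact Or.inl (h1.trans h2)
  · exact heq_of_up h1 h2
  · exact heq_of_down h1 h2
  · exact Or.inr (h2.trans h1)

theorem Heq.word {x y : Obj D} (h : Heq x y) : x.p ++ x.q = y.p ++ y.q := by
  rcases h with ⟨a, a1, a2, _⟩ | ⟨a, a1, a2, _⟩
  · rw [a1, a2, List.append_assoc]
  · rw [a1, a2, List.append_assoc]

theorem Heq.label {x y : Obj D} (h : Heq x y) (hp : x.p = y.p) : x.γ = y.γ := by
  rcases h with ⟨a, a1, _, a3⟩ | ⟨a, a1, _, a3⟩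
  · have : a = [] := by
      rw [hp] at a1; exact List.self_eq_append_right.1 a1
    rw [this, D.act_nil] at a3; exact a3.symm
  · have : a = [] := by
      rw [hp] at a1; exact List.self_eq_append_right.1 a1
    rw [this, D.act_nil] at a3; exact a3

variable (D) in
/-- the setoid -/
def std : Setoid (Obj D) := ⟨Heq, fun x => Or.inl (Le.refl x), Heq.symm, Heq.trans⟩

variable (D) in
/-- labelled words -/
def Lw : Type _ := Quotient (std D)

/-- class -/
def cls (x : Obj D) : Lw D := Quotient.mk (std D) x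

theorem cls_eq {x y : Obj D} : cls x = cls y ↔ Heq x y :=
  ⟨fun h => Quotient.exact h, fun h => Quotient.sound h⟩

/-- underlying word -/
def Lw.word : Lw D → List A := Quotient.lift (fun x => x.p ++ x.q) (fun _ _ h => h.word)

@[simp] theorem word_cls (x : Obj D) : (cls x).word = x.p ++ x.q := rfl

/-- any good cut of the word carries a representative -/
theorem exists_rep (X : Lw D) {p q : List A} (hw : X.word = p ++ q) (hp : D.good p) :
    ∃ x : Obj D, cls x = X ∧ x.p = p ∧ x.q = q := by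
  obtain ⟨y, rfl⟩ := Quotient.exists_rep X
  change y.p ++ y.q = p ++ q at hw
  have hm : p ++ q ∈ D.K := hw ▸ y.mem
  rcases List.append_eq_append_iff.1 hw with ⟨c, c1, c2⟩ | ⟨c, c1, c2⟩
  · -- p = y.p ++ c, y.q = c ++ q
    have hT : D.act y.γ c ∈ D.T p := by
      rw [c1]; exact D.T_maps _ _ y.good (by rw [← c1]; exact hp) _ y.mT
    refine ⟨⟨p, q, D.act y.γ c, hm, hp, hT⟩, ?_, rfl, rfl⟩
    apply cls_eq.2
    exact Or.inr ⟨c, c1, c2, rfl⟩
  · -- y.p = p ++ c, q = c ++ y.q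
    obtain ⟨δ, hδ, h1⟩ := D.T_surj p c hp (by rw [← c1]; exact y.good) y.γ (by rw [← c1]; exact y.mT)
    refine ⟨⟨p, q, δ, hm, hp, hδ⟩, ?_, rfl, rfl⟩
    apply cls_eq.2
    exact Or.inl ⟨c, c1, c2, h1.symm⟩

/-- a rewriting step at a labelled cut -/
def VerO (s l r t : List A) (x y : Obj D) : Prop :=
  x.γ = y.γ ∧
  ((∃ a, s = x.p ++ a ∧ x.q = a ++ l ++ t ∧ y.p = x.p ∧ y.q = a ++ r ++ t) ∨
   (∃ b, x.p = s ++ l ++ b ∧ t = b ++ x.q ∧ y.p = s ++ r ++ b ∧ y.q = x.q))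

theorem VerO.word {s l r t : List A} {x y : Obj D} (h : VerO s l r t x y) :
    x.p ++ x.q = s ++ l ++ t ∧ y.p ++ y.q = s ++ r ++ t := by
  rcases h with ⟨_, ⟨a, a1, a2, a3, a4⟩ | ⟨b, b1, b2, b3, b4⟩⟩
  · rw [a3, a4, a2, a1]; simp
  · rw [b3, b4, b1, b2]; simp

theorem verO_coherent_aux {s l r t : List A} (hR : (l, r) ∈ R) {x y x' y' : Obj D}
    (h : VerO s l r t x y) (h' : VerO s l r t x' y') (hx : Le x x') : Heq y y' := by
  obtain ⟨z, z1, z2, z3⟩ := hx
  obtain ⟨hγ, h⟩ := h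
  obtain ⟨hγ', h'⟩ := h'
  rcases h with ⟨a, a1, a2, a3, a4⟩ | ⟨b, b1, b2, b3, b4⟩
  · rcases h' with ⟨a', a1', a2', a3', a4'⟩ | ⟨b', b1', b2', b3', b4'⟩
    · left
      have e : a = z ++ a' := by
        rw [a1, z1, List.append_assoc] at a1'
        exact List.append_cancel_left a1'
      exact ⟨z, by rw [a3', a3, z1], by rw [a4, a4', e]; simp, by rw [← hγ', ← hγ, z3]⟩
    · left
      have e : z = a ++ l ++ b' := by
        rw [z1, a1, List.append_assoc, List.append_assoc] at b1'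
        rw [List.append_assoc]
        exact List.append_cancel_left b1'
      refine ⟨a ++ r ++ b', ?_, ?_, ?_⟩
      · rw [b3', a3, a1]; simp
      · rw [a4, b4', b2']; simp
      · rw [← hγ', ← hγ, z3, e]
        exact D.act_step _ _ ⟨a, l, r, b', hR, rfl, rfl⟩ _
  · rcases h' with ⟨a', a1', a2', a3', a4'⟩ | ⟨b', b1', b2', b3', b4'⟩
    · -- x.p = s l b, x'.p = x.p z, s = x'.p a'
      have e : l ++ b ++ z ++ a' = [] := by
        rw [z1, b1] at a1'
        have : s ++ [] = s ++ (l ++ b ++ z ++ a') := by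
          rw [List.append_nil]
          conv_lhs => rw [a1']
          simp
        exact (List.append_cancel_left this).symm
      simp only [List.append_eq_nil_iff] at e
      obtain ⟨⟨⟨e1, e2⟩, e3⟩, e4⟩ := e
      subst e1 e2 e3 e4
      simp only [List.append_nil, List.nil_append] at *
      right
      refine ⟨r, ?_, ?_, ?_⟩
      · rw [b3, a3', z1, b1]
      · rw [a4', b4, b2]
      · rw [← hγ, ← hγ', z3, D.act_nil, ← D.act_step [] r ⟨[], [], r, [], hR, rfl, by simp⟩, D.act_nil]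
    · left
      have e : b' = b ++ z := by
        rw [z1, b1] at b1'
        have : (s ++ l) ++ (b ++ z) = (s ++ l) ++ b' := by rw [← b1']; simp
        exact (List.append_cancel_left this).symm
      exact ⟨z, by rw [b3', b3, e]; simp, by rw [b4, b4', z2], by rw [← hγ', ← hγ, z3]⟩

theorem verO_coherent {s l r t : List A} (hR : (l, r) ∈ R) {x y x' y' : Obj D}
    (h : VerO s l r t x y) (h' : VerO s l r t x' y') (hx : Heq x x') : Heq y y' := by
  rcases hx with hx | hx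
  · exact verO_coherent_aux hR h h' hx
  · exact (verO_coherent_aux hR h' h hx).symm

/-- one step of labelled words -/
def QStep (X Y : Lw D) : Prop :=
  ∃ (s l r t : List A) (x y : Obj D), (l, r) ∈ R ∧ cls x = X ∧ cls y = Y ∧ VerO s l r t x y

theorem QStep.step {X Y : Lw D} (h : QStep X Y) : Step R X.word Y.word := by
  obtain ⟨s, l, r, t, x, y, hR, rfl, rfl, h⟩ := h
  obtain ⟨h1, h2⟩ := h.word
  exact ⟨s, l, r, t, hR, h1, h2⟩

theorem qstep_wf (hw : WellFounded (fun v u => Step R u v)) :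
    WellFounded (fun (Y X : Lw D) => QStep X Y) := by
  apply Subrelation.wf (r := InvImage (fun v u => Step R u v) Lw.word)
  · intro Y X h; exact h.step
  · exact InvImage.wf _ hw

/-- move along a rewriting of the suffix -/
theorem suffix_step {x : Obj D} {q' : List A} (h : Step R x.q q') :
    ∃ y : Obj D, y.p = x.p ∧ y.q = q' ∧ y.γ = x.γ ∧ QStep (cls x) (cls y) := by
  obtain ⟨s, l, r, t, hR, h1, h2⟩ := h
  have hst : Step R (x.p ++ x.q) (x.p ++ q') :=
    ⟨x.p ++ s, l, r, t, hR, by rw [h1]; simp, by rw [h2]; simp⟩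
  refine ⟨⟨x.p, q', x.γ, (D.K_step _ _ hst).1 x.mem, x.good, x.mT⟩, rfl, rfl, rfl, ?_⟩
  exact ⟨x.p ++ s, l, r, t, x, _, hR, rfl, rfl, rfl, Or.inl ⟨s, rfl, h1, rfl, h2⟩⟩

/-- move along a rewriting of the prefix -/
theorem prefix_step {x : Obj D} {p' : List A} (h : Step R x.p p') :
    ∃ y : Obj D, y.p = p' ∧ y.q = x.q ∧ y.γ = x.γ ∧ QStep (cls x) (cls y) := by
  have hs := h
  obtain ⟨s, l, r, t, hR, h1, h2⟩ := h
  have hst : Step R (x.p ++ x.q) (p' ++ x.q) :=
    ⟨s, l, r, t ++ x.q, hR, by rw [h1]; simp, by rw [h2]; simp⟩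
  refine ⟨⟨p', x.q, x.γ, (D.K_step _ _ hst).1 x.mem, (D.good_step _ _ hs).1 x.good,
    (D.T_step _ _ hs) ▸ x.mT⟩, rfl, rfl, rfl, ?_⟩
  exact ⟨s, l, r, t ++ x.q, x, _, hR, rfl, rfl, rfl, Or.inr ⟨t, h1, rfl, h2, rfl⟩⟩

theorem suffix_steps {x : Obj D} {q' : List A} (h : ReflTransGen (Step R) x.q q') :
    ∃ y : Obj D, y.p = x.p ∧ y.q = q' ∧ y.γ = x.γ ∧ ReflTransGen QStep (cls x) (cls y) := by
  induction h with
  | refl => exact ⟨x, rfl, rfl, rfl, .refl⟩
  | tail _ h2 ih =>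
    obtain ⟨y, h3, h4, h5, h6⟩ := ih
    obtain ⟨z, h7, h8, h9, h10⟩ := suffix_step (x := y) (by rw [h4]; exact h2)
    exact ⟨z, h7.trans h3, h8, h9.trans h5, h6.tail h10⟩

theorem prefix_steps {x : Obj D} {p' : List A} (h : ReflTransGen (Step R) x.p p') :
    ∃ y : Obj D, y.p = p' ∧ y.q = x.q ∧ y.γ = x.γ ∧ ReflTransGen QStep (cls x) (cls y) := by
  induction h with
  | refl => exact ⟨x, rfl, rfl, rfl, .refl⟩
  | tail _ h2 ih =>
    obtain ⟨y, h3, h4, h5, h6⟩ := ih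
    obtain ⟨z, h7, h8, h9, h10⟩ := prefix_step (x := y) (by rw [h3]; exact h2)
    exact ⟨z, h7, h8.trans h4, h9.trans h5, h6.tail h10⟩

theorem cls_eq_of {x y : Obj D} (h1 : x.p = y.p) (h2 : x.q = y.q) (h3 : x.γ = y.γ) : cls x = cls y := by
  rw [Obj.ext' h1 h2 h3]

/-- the target of an occurrence at a representative with a cut outside the occurrence -/
theorem occ_step {s l r t : List A} (hR : (l, r) ∈ R) {X Y : Lw D} {x0 y0 : Obj D} (hX : cls x0 = X)
    (hY : cls y0 = Y) (hv : VerO s l r t x0 y0) {c : Obj D} (hc : cls c = X)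
    (hout : (∃ a, s = c.p ++ a ∧ c.q = a ++ l ++ t) ∨ (∃ b, c.p = s ++ l ++ b ∧ t = b ++ c.q)) :
    (∃ (q' : List A) (y : Obj D), Step R c.q q' ∧ y.p = c.p ∧ y.q = q' ∧ y.γ = c.γ ∧ cls y = Y) ∨
    (∃ (p' : List A) (y : Obj D), Step R c.p p' ∧ y.p = p' ∧ y.q = c.q ∧ y.γ = c.γ ∧ cls y = Y) := by
  have hcx : Heq x0 c := cls_eq.1 (hX.trans hc.symm)
  rcases hout with ⟨a, a1, a2⟩ | ⟨b, b1, b2⟩
  · left
    have hs : Step R c.q (a ++ r ++ t) := ⟨a, l, r, t, hR, a2, rfl⟩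
    obtain ⟨y, h1, h2, h3, _⟩ := suffix_step hs
    refine ⟨_, y, hs, h1, h2, h3, ?_⟩
    rw [← hY]
    apply cls_eq.2
    exact verO_coherent hR (x := c) (y := y) (x' := x0) (y' := y0)
      ⟨h3.symm, Or.inl ⟨a, a1, a2, h1, h2⟩⟩ hv hcx.symm
  · right
    have hs : Step R c.p (s ++ r ++ b) := ⟨s, l, r, b, hR, b1, rfl⟩
    obtain ⟨y, h1, h2, h3, _⟩ := prefix_step hs
    refine ⟨_, y, hs, h1, h2, h3, ?_⟩
    rw [← hY]
    apply cls_eq.2
    exact verO_coherent hR (x := c) (y := y) (x' := x0) (y' := y0)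
      ⟨h3.symm, Or.inr ⟨b, b1, b2, h1, h2⟩⟩ hv hcx.symm

theorem local_confluence
    (hconf : ∀ u v w, ReflTransGen (Step R) u v → ReflTransGen (Step R) u w →
      ∃ z, ReflTransGen (Step R) v z ∧ ReflTransGen (Step R) w z) (X Y Z : Lw D)
    (h1 : QStep X Y) (h2 : QStep X Z) :
    ∃ W, ReflTransGen QStep Y W ∧ ReflTransGen QStep Z W := by
  obtain ⟨s, l, r, t, x, y, hR, hx, hy, hv⟩ := h1
  obtain ⟨s', l', r', t', x', z, hR', hx', hz, hv'⟩ := h2
  have hw : X.word = s ++ l ++ t := by rw [← hx]; exact hv.word.1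
  have hw' : X.word = s' ++ l' ++ t' := by rw [← hx']; exact hv'.word.1
  have hK : s ++ l ++ t ∈ D.K := by rw [← hv.word.1]; exact x.mem
  obtain ⟨p, q, e, hg, o1, o2⟩ := D.hcut s l r t s' l' r' t' hR hR' hK (hw ▸ hw')
  obtain ⟨c, hc, rfl, rfl⟩ := exists_rep X (hw.trans e) hg
  rcases occ_step hR hx hy hv hc o1 with ⟨q1, y1, a1, a2, a3, a4, a5⟩ | ⟨p1, y1, a1, a2, a3, a4, a5⟩
  · rcases occ_step hR' hx' hz hv' hc o2 with ⟨q2, y2, b1, b2, b3, b4, b5⟩ | ⟨p2, y2, b1, b2, b3, b4, b5⟩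
    · obtain ⟨q3, c1, c2⟩ := hconf _ _ _ (.single a1) (.single b1)
      obtain ⟨w1, d1, d2, d3, d4⟩ := suffix_steps (x := y1) (q' := q3) (by rw [a3]; exact c1)
      obtain ⟨w2, e1, e2, e3, e4⟩ := suffix_steps (x := y2) (q' := q3) (by rw [b3]; exact c2)
      refine ⟨cls w1, by rw [← a5]; exact d4, ?_⟩
      rw [← b5]
      rw [cls_eq_of (x := w1) (y := w2) (by rw [d1, e1, a2, b2]) (by rw [d2, e2]) (by rw [d3, e3, a4, b4])]
      exact e4
    · obtain ⟨w1, d1, d2, d3, d4⟩ := prefix_step (x := y1) (p' := p2) (by rw [a2]; exact b1)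
      obtain ⟨w2, e1, e2, e3, e4⟩ := suffix_step (x := y2) (q' := q1) (by rw [b3]; exact a1)
      refine ⟨cls w1, by rw [← a5]; exact .single d4, ?_⟩
      rw [← b5]
      rw [cls_eq_of (x := w1) (y := w2) (by rw [d1, e1, b2]) (by rw [d2, e2, a3]) (by rw [d3, e3, a4, b4])]
      exact .single e4
  · rcases occ_step hR' hx' hz hv' hc o2 with ⟨q2, y2, b1, b2, b3, b4, b5⟩ | ⟨p2, y2, b1, b2, b3, b4, b5⟩
    · obtain ⟨w1, d1, d2, d3, d4⟩ := suffix_step (x := y1) (q' := q2) (by rw [a3]; exact b1)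
      obtain ⟨w2, e1, e2, e3, e4⟩ := prefix_step (x := y2) (p' := p1) (by rw [b2]; exact a1)
      refine ⟨cls w1, by rw [← a5]; exact .single d4, ?_⟩
      rw [← b5]
      rw [cls_eq_of (x := w1) (y := w2) (by rw [d1, e1, a2]) (by rw [d2, e2, b3]) (by rw [d3, e3, a4, b4])]
      exact .single e4
    · obtain ⟨p3, c1, c2⟩ := hconf _ _ _ (.single a1) (.single b1)
      obtain ⟨w1, d1, d2, d3, d4⟩ := prefix_steps (x := y1) (p' := p3) (by rw [a2]; exact c1)
      obtain ⟨w2, e1, e2, e3, e4⟩ := prefix_steps (x := y2) (p' := p3) (by rw [b2]; exact c2)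
      refine ⟨cls w1, by rw [← a5]; exact d4, ?_⟩
      rw [← b5]
      rw [cls_eq_of (x := w1) (y := w2) (by rw [d1, e1]) (by rw [d2, e2, a3, b3]) (by rw [d3, e3, a4, b4])]
      exact e4

/-- every labelled word whose word is reducible can be rewritten at a chosen occurrence, together with
another labelled word over the same word -/
theorem eq_of_eqvGen (hw : WellFounded (fun v u => Step R u v))
    (hconf : ∀ u v w, ReflTransGen (Step R) u v → ReflTransGen (Step R) u w →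
      ∃ z, ReflTransGen (Step R) v z ∧ ReflTransGen (Step R) w z) :
    ∀ (w : List A) (X X' : Lw D), X.word = w → X'.word = w → EqvGen QStep X X' → X = X' := by
  intro w
  induction w using hw.induction with
  | _ w ih =>
    intro X X' hX hX' h
    by_cases hirr : ∃ w', Step R w w'
    · obtain ⟨w', s, l, r, t, hR, h1, h2⟩ := hirr
      have hK : s ++ l ++ t ∈ D.K := by
        obtain ⟨x, rfl⟩ := Quotient.exists_rep X
        rw [← h1, ← hX]; exact x.mem
      obtain ⟨p, q, e, hg, o1, _⟩ := D.hcut s l r t s l r t hR hR hK rfl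
      obtain ⟨x, hx, hx1, hx2⟩ := exists_rep X (by rw [hX, h1]; exact e) hg
      obtain ⟨x', hx', hx1', hx2'⟩ := exists_rep X' (by rw [hX', h1]; exact e) hg
      rcases o1 with ⟨a, a1, a2⟩ | ⟨b, b1, b2⟩
      · have hs : Step R q (a ++ r ++ t) := ⟨a, l, r, t, hR, a2, rfl⟩
        obtain ⟨y, c1, c2, c3, c4⟩ := suffix_step (x := x) (q' := a ++ r ++ t) (by rw [hx2]; exact hs)
        obtain ⟨y', c1', c2', c3', c4'⟩ := suffix_step (x := x') (q' := a ++ r ++ t) (by rw [hx2']; exact hs)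
        have hw' : w' = y.p ++ y.q := by rw [h2, c1, c2, hx1, a1]; simp
        have key := ih w' ⟨s, l, r, t, hR, h1, h2⟩ (cls y) (cls y') hw'.symm
          (by rw [word_cls, c1', c2', hx1', h2, a1]; simp) (by
            rw [hx] at c4
            rw [hx'] at c4'
            exact .trans _ _ _ (.trans _ _ _ (.symm _ _ (.rel _ _ c4)) h) (.rel _ _ c4'))
        have h3 := (cls_eq.1 key).label (by rw [c1, c1', hx1, hx1'])
        rw [← hx, ← hx']
        exact cls_eq_of (by rw [hx1, hx1']) (by rw [hx2, hx2']) (by rw [← c3, ← c3', h3])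
      · have hs : Step R p (s ++ r ++ b) := ⟨s, l, r, b, hR, b1, rfl⟩
        obtain ⟨y, c1, c2, c3, c4⟩ := prefix_step (x := x) (p' := s ++ r ++ b) (by rw [hx1]; exact hs)
        obtain ⟨y', c1', c2', c3', c4'⟩ := prefix_step (x := x') (p' := s ++ r ++ b) (by rw [hx1']; exact hs)
        have hw' : w' = y.p ++ y.q := by rw [h2, c1, c2, hx2, b2]; simp
        have key := ih w' ⟨s, l, r, t, hR, h1, h2⟩ (cls y) (cls y') hw'.symm
          (by rw [word_cls, c1', c2', hx2', h2, b2]; simp) (by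
            rw [hx] at c4
            rw [hx'] at c4'
            exact .trans _ _ _ (.trans _ _ _ (.symm _ _ (.rel _ _ c4)) h) (.rel _ _ c4'))
        have h3 := (cls_eq.1 key).label (by rw [c1, c1'])
        rw [← hx, ← hx']
        exact cls_eq_of (by rw [hx1, hx1']) (by rw [hx2, hx2']) (by rw [← c3, ← c3', h3])
    · obtain ⟨d, h1, h2⟩ := join_of_eqvGen (qstep_wf (D := D) hw) (local_confluence hconf) h
      have hn : ∀ (Y : Lw D), Y.word = w → ∀ Z, ReflTransGen QStep Y Z → Z = Y := by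
        intro Y hY Z hZ
        rcases ReflTransGen.cases_head hZ with h | ⟨Y1, hY1, _⟩
        · exact h.symm
        · exact absurd ⟨_, hY ▸ hY1.step⟩ hirr
      rw [← hn X hX d h1, ← hn X' hX' d h2]

theorem suffix_eqv {q q' : List A} (h : EqvGen (Step R) q q') :
    (∀ x : Obj D, x.q = q → ∃ y : Obj D, y.p = x.p ∧ y.q = q' ∧ y.γ = x.γ ∧ EqvGen QStep (cls x) (cls y)) ∧
    (∀ x : Obj D, x.q = q' → ∃ y : Obj D, y.p = x.p ∧ y.q = q ∧ y.γ = x.γ ∧ EqvGen QStep (cls x) (cls y)) := by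
  induction h with
  | rel q q' h =>
    constructor
    · intro x hx
      obtain ⟨y, h1, h2, h3, h4⟩ := suffix_step (x := x) (by rw [hx]; exact h)
      exact ⟨y, h1, h2, h3, .rel _ _ h4⟩
    · intro x hx
      have hst : Step R (x.p ++ q) (x.p ++ q') := by
        obtain ⟨s, l, r, t, hR, h1, h2⟩ := h
        exact ⟨x.p ++ s, l, r, t, hR, by rw [h1]; simp, by rw [h2]; simp⟩
      let x0 : Obj D := ⟨x.p, q, x.γ, (D.K_step _ _ hst).2 (hx ▸ x.mem), x.good, x.mT⟩
      obtain ⟨y, h1, h2, h3, h4⟩ := suffix_step (x := x0) h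
      refine ⟨x0, rfl, rfl, rfl, ?_⟩
      rw [cls_eq_of (x := x) (y := y) h1.symm (by rw [hx, h2]) h3.symm]
      exact .symm _ _ (.rel _ _ h4)
  | refl q => exact ⟨fun x hx => ⟨x, rfl, hx, rfl, .refl _⟩, fun x hx => ⟨x, rfl, hx, rfl, .refl _⟩⟩
  | symm q q' _ ih => exact ⟨ih.2, ih.1⟩
  | trans q q' q'' _ _ ih1 ih2 =>
    constructor
    · intro x hx
      obtain ⟨y, h1, h2, h3, h4⟩ := ih1.1 x hx
      obtain ⟨z, h5, h6, h7, h8⟩ := ih2.1 y h2
      exact ⟨z, h5.trans h1, h6, h7.trans h3, .trans _ _ _ h4 h8⟩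
    · intro x hx
      obtain ⟨y, h1, h2, h3, h4⟩ := ih2.2 x hx
      obtain ⟨z, h5, h6, h7, h8⟩ := ih1.2 y h2
      exact ⟨z, h5.trans h1, h6, h7.trans h3, .trans _ _ _ h4 h8⟩

theorem prefix_eqv {p p' : List A} (h : EqvGen (Step R) p p') :
    (∀ x : Obj D, x.p = p → ∃ y : Obj D, y.p = p' ∧ y.q = x.q ∧ y.γ = x.γ ∧ EqvGen QStep (cls x) (cls y)) ∧
    (∀ x : Obj D, x.p = p' → ∃ y : Obj D, y.p = p ∧ y.q = x.q ∧ y.γ = x.γ ∧ EqvGen QStep (cls x) (cls y)) := by
  induction h with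
  | rel p p' h =>
    constructor
    · intro x hx
      obtain ⟨y, h1, h2, h3, h4⟩ := prefix_step (x := x) (by rw [hx]; exact h)
      exact ⟨y, h1, h2, h3, .rel _ _ h4⟩
    · intro x hx
      have hst : Step R (p ++ x.q) (p' ++ x.q) := by
        obtain ⟨s, l, r, t, hR, h1, h2⟩ := h
        exact ⟨s, l, r, t ++ x.q, hR, by rw [h1]; simp, by rw [h2]; simp⟩
      let x0 : Obj D := ⟨p, x.q, x.γ, (D.K_step _ _ hst).2 (hx ▸ x.mem), (D.good_step _ _ h).2 (hx ▸ x.good),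
          by rw [D.T_step _ _ h, ← hx]; exact x.mT⟩
      obtain ⟨y, h1, h2, h3, h4⟩ := prefix_step (x := x0) h
      refine ⟨x0, rfl, rfl, rfl, ?_⟩
      rw [cls_eq_of (x := x) (y := y) (by rw [hx, h1]) h2.symm h3.symm]
      exact .symm _ _ (.rel _ _ h4)
  | refl q => exact ⟨fun x hx => ⟨x, hx, rfl, rfl, .refl _⟩, fun x hx => ⟨x, hx, rfl, rfl, .refl _⟩⟩
  | symm q q' _ ih => exact ⟨ih.2, ih.1⟩
  | trans q q' q'' _ _ ih1 ih2 =>
    constructor
    · intro x hx
      obtain ⟨y, h1, h2, h3, h4⟩ := ih1.1 x hx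
      obtain ⟨z, h5, h6, h7, h8⟩ := ih2.1 y h1
      exact ⟨z, h5, h6.trans h2, h7.trans h3, .trans _ _ _ h4 h8⟩
    · intro x hx
      obtain ⟨y, h1, h2, h3, h4⟩ := ih2.2 x hx
      obtain ⟨z, h5, h6, h7, h8⟩ := ih1.2 y h1
      exact ⟨z, h5, h6.trans h2, h7.trans h3, .trans _ _ _ h4 h8⟩

/-- **Trivial monodromy.** If the rewriting system is terminating and confluent, then an
endomorphism `t` of the cut `(p, q)` acts trivially on the labels. -/
theorem monodromy_trivial (D : Cov R V) (hw : WellFounded (fun v u => Step R u v))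
    (hconf : ∀ u v w, ReflTransGen (Step R) u v → ReflTransGen (Step R) u w →
      ∃ z, ReflTransGen (Step R) v z ∧ ReflTransGen (Step R) w z)
    (p q t : List A) (hK : p ++ q ∈ D.K) (hg : D.good p) (hpt : D.good (p ++ t))
    (h1 : EqvGen (Step R) (p ++ t) p) (h2 : EqvGen (Step R) (t ++ q) q) (γ : V) (hγ : γ ∈ D.T p) :
    D.act γ t = γ := by
  let x : Obj D := ⟨p, q, γ, hK, hg, hγ⟩
  obtain ⟨y, y1, y2, y3, y4⟩ := (suffix_eqv (D := D) h2).2 x rfl
  -- y = (p, t ++ q, γ)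
  have hm : (p ++ t) ++ q ∈ D.K := by
    rw [List.append_assoc, ← y2]
    have := y.mem
    rwa [y1] at this
  let z : Obj D := ⟨p ++ t, q, D.act γ t, hm, hpt, D.T_maps _ _ hg hpt _ hγ⟩
  have hyz : cls y = cls z := cls_eq.2 (Or.inl ⟨t, by rw [y1], y2, by rw [y3]⟩)
  obtain ⟨u, u1, u2, u3, u4⟩ := (prefix_eqv (D := D) h1).1 z rfl
  have key : cls x = cls u := eq_of_eqvGen hw hconf (p ++ q) (cls x) (cls u) rfl
    (by rw [word_cls, u1, u2]) (.trans _ _ _ y4 (hyz ▸ u4))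
  have := (cls_eq.1 key).label u1.symm
  rw [u3] at this
  exact this.symm

end Pool.Agent.Helper9.RW
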