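import Pool.Agent.Helper9.RW.Pos

set_option autoImplicit false

/-!
# The special class of words in `IG (PM n)`
-/

namespace Pool.Agent.Helper9.RW

open Pool.Agent.H213 RkMonoid Relation PM

/-- alternating blocks -/
def EF {S : Type*} [Monoid S] (x y : Idem S) (m : ℕ) : List (List (Idem S)) :=
  (List.replicate m [[x], [y]]).flatten

theorem EF_succ {S : Type*} [Monoid S] (x y : Idem S) (m : ℕ) : EF x y (m + 1) = [x] :: [y] :: EF x y m := by
  simp [EF, List.replicate_succ]

theorem length_EF {S : Type*} [Monoid S] (x y : Idem S) (m : ℕ) : (EF x y m).length = 2 * m := by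
  induction m with
  | zero => rfl
  | succ m ih => rw [EF_succ, List.length_cons, List.length_cons, ih]; ring

theorem chain_EF {S : Type*} [RkMonoid S] {x y g : Idem S} (hxy : NR (x : S) (y : S)) (hyx : NR (y : S) (x : S))
    (hyg : NR (y : S) (g : S)) : ∀ m, List.IsChain (fun a b => NR (vl a) (vl b)) ([y] :: (EF x y m ++ [[g]]))
  | 0 => by simpa [EF, vl_singleton] using hyg
  | m + 1 => by
    rw [EF_succ, List.cons_append, List.cons_append, List.isChain_cons_cons, List.isChain_cons_cons]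
    refine ⟨by simpa [vl_singleton] using hyx, by simpa [vl_singleton] using hxy, chain_EF hxy hyx hyg m⟩

theorem regW_EF {S : Type*} [RkMonoid S] (x y : Idem S) (m : ℕ) : ∀ u ∈ EF x y m, RegW u := by
  induction m with
  | zero => intro u hu; simp [EF] at hu
  | succ m ih =>
    intro u hu
    rw [EF_succ] at hu
    rcases List.mem_cons.1 hu with rfl | hu
    · exact regW_singleton _
    rcases List.mem_cons.1 hu with rfl | hu
    · exact regW_singleton _
    · exact ih u hu

/-- the reduced factorization -/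
theorem red_EF {S : Type*} [RkMonoid S] {x y g : Idem S} (hxy : NR (x : S) (y : S)) (hyx : NR (y : S) (x : S))
    (hyg : NR (y : S) (g : S)) (hgx : NR (g : S) (x : S)) (m : ℕ) :
    RedW ([g] :: [x] :: [y] :: (EF x y m ++ [[g]])) := by
  constructor
  · intro u hu
    simp only [List.mem_cons, List.mem_append, List.not_mem_nil, or_false] at hu
    rcases hu with rfl | rfl | rfl | hu | rfl
    · exact regW_singleton _
    · exact regW_singleton _
    · exact regW_singleton _
    · exact regW_EF _ _ _ _ hu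
    · exact regW_singleton _
  · rw [List.isChain_cons_cons, List.isChain_cons_cons]
    exact ⟨by simpa [vl_singleton] using hgx, by simpa [vl_singleton] using hxy, chain_EF hxy hyx hyg m⟩

variable {n : ℕ}

theorem Es_mul_EF {P Q X : Set (Fin n)} (hP : X ⊆ P) (hQ : X ⊆ Q) (m : ℕ) :
    Es X * vl (EF (ei P) (ei Q) m).flatten = Es X := by
  induction m with
  | zero => simp [EF]
  | succ m ih =>
    rw [EF_succ, List.flatten_cons, List.flatten_cons, vl_append, vl_append, vl_singleton, vl_singleton, coe_ei,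
      coe_ei, ← mul_assoc, ← mul_assoc, Es_mul, Es_mul, Set.inter_eq_left.2 hP, Set.inter_eq_left.2 hQ, ih]

theorem sw_EF {a b c : Fin n} {P Q : Set (Fin n)} (hab : a ≠ b) (hac : a ≠ c) (hbc : b ≠ c)
    (haP : a ∈ P) (hbP : b ∈ P) (hcP : c ∉ P) (hP : Nat.card P + 2 ≤ n)
    (haQ : a ∈ Q) (hbQ : b ∈ Q) (hcQ : c ∉ Q) (hQ : Nat.card Q + 2 ≤ n) (m : ℕ) :
    mkw (swW a b c) * mkw (EF (ei P) (ei Q) m).flatten = mkw (EF (ei P) (ei Q) m).flatten * mkw (swW a b c) := by
  induction m with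
  | zero => simp [EF, mkw_nil]
  | succ m ih =>
    rw [EF_succ, List.flatten_cons, List.flatten_cons, mkw_append, mkw_append]
    have h1 : mkw (swW a b c) * mkw [ei P] = mkw [ei P] * mkw (swW a b c) :=
      (sw_comm_IG haP hbP hcP hab hac hbc hP).symm
    have h2 : mkw (swW a b c) * mkw [ei Q] = mkw [ei Q] * mkw (swW a b c) :=
      (sw_comm_IG haQ hbQ hcQ hab hac hbc hQ).symm
    rw [← mul_assoc, h1, mul_assoc, ← mul_assoc (mkw (swW a b c)), h2, mul_assoc (mkw [ei Q]), ih]
    simp only [mul_assoc]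

/-- the statement of the obstruction -/
def Spec (n : ℕ) : Prop := ∃ (r : ℕ) (P T X : List (Idem (PM n))) (Q : ℕ → List (Idem (PM n))),
    P ≠ [] ∧ T ≠ [] ∧ (∀ m, Q m ≠ []) ∧
    mkw (P ++ T) = mkw P ∧ (∀ m, mkw (T ++ Q m) = mkw (Q m)) ∧ gd r P ∧
    vl X ∈ lab r P ∧ vl X * vl T ≠ vl X ∧
    ∀ m, ∀ w : List (Idem (PM n)), mkw w = mkw (P ++ Q m) → ∃ a b : ℕ, a + 2 * m ≤ b ∧ b ≤ w.length ∧
      ∀ i, a ≤ i → i ≤ b → gd r (w.take i)

theorem special_aux (hn : 5 ≤ n) {a b c : Fin n} {G E F : Set (Fin n)} (hab : a ≠ b) (hac : a ≠ c) (hbc : b ≠ c)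
    (rG : rk (Es G) = n - 3) (rE : rk (Es E) = n - 2) (rF : rk (Es F) = n - 2)
    (rEF : rk (Es E * Es F) = n - 3) (rGE : rk (Es G * Es E) = n - 4) (rGF : rk (Es G * Es F) = n - 4)
    (haG : a ∉ G) (hbG : b ∉ G) (hcG : c ∉ G) (haE : a ∈ E) (hbE : b ∈ E) (hcE : c ∉ E)
    (haF : a ∈ F) (hbF : b ∈ F) (hcF : c ∉ F) : Spec n := by
  have rFE : rk (Es F * Es E) = n - 3 := by rw [Es_mul, Set.inter_comm, ← Es_mul, rEF]
  have rFG : rk (Es F * Es G) = n - 4 := by rw [Es_mul, Set.inter_comm, ← Es_mul, rGF]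
  have nG : Nat.card G + 2 ≤ n := by rw [← rk_Es, rG]; omega
  have nE : Nat.card E + 2 ≤ n := by rw [← rk_Es, rE]; omega
  have nF : Nat.card F + 2 ≤ n := by rw [← rk_Es, rF]; omega
  have hNRxy : NR ((ei E : Idem (PM n)) : PM n) ((ei F : Idem (PM n)) : PM n) := by
    unfold NR
    rw [coe_ei, coe_ei, rEF, rE, rF]; omega
  have hNRyx : NR ((ei F : Idem (PM n)) : PM n) ((ei E : Idem (PM n)) : PM n) := by
    unfold NR
    rw [coe_ei, coe_ei, rFE, rE, rF]; omega
  have hNRyg : NR ((ei F : Idem (PM n)) : PM n) ((ei G : Idem (PM n)) : PM n) := by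
    unfold NR
    rw [coe_ei, coe_ei, rFG, rG, rF]; omega
  have hNRgx : NR ((ei G : Idem (PM n)) : PM n) ((ei E : Idem (PM n)) : PM n) := by
    unfold NR
    rw [coe_ei, coe_ei, rGE, rG, rE]; omega
  have cE' : mkw [ei E] * mkw (swW a b c) = mkw (swW a b c) * mkw [ei E] :=
    sw_comm_IG haE hbE hcE hab hac hbc nE
  have cF' : mkw [ei F] * mkw (swW a b c) = mkw (swW a b c) * mkw [ei F] :=
    sw_comm_IG haF hbF hcF hab hac hbc nF
  have cG' : mkw [ei G] * mkw (swW a b c) = mkw [ei G] := eg_sw haG hbG hcG hab hac hbc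
  have remP : remv (n - 3) 1 ([ei G, ei E, ei F] : List (Idem (PM n))) = Es E * Es F := by
    have e1 : remv (n - 3) 1 ([ei G, ei E, ei F] : List (Idem (PM n))) =
        remv (n - 3) (Es G) ([ei E, ei F] : List (Idem (PM n))) := by
      have := remv_consume (n - 3) ([ei E, ei F] : List (Idem (PM n))) [ei G] 1
        (by rw [one_mul, vl_singleton, coe_ei, rG])
      rw [one_mul, vl_singleton, coe_ei] at this
      exact this
    rw [e1]
    have e2 : ¬ n - 3 ≤ rk (Es G * ((ei E : Idem (PM n)) : PM n)) := by rw [coe_ei, rGE]; omega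
    show (if n - 3 ≤ rk (Es G * ((ei E : Idem (PM n)) : PM n)) then _ else _) = _
    rw [if_neg e2, vl_singleton, coe_ei, coe_ei]
  refine ⟨n - 3, [ei G, ei E, ei F], swW a b c, [ei E, ei F], fun m => (EF (ei E) (ei F) m).flatten ++ [ei G],
    by simp, by simp [swW], fun m => by simp, ?_, ?_, ?_, ?_, ?_, ?_⟩
  · rw [mkw_append]
    have : mkw ([ei G, ei E, ei F] : List (Idem (PM n))) = mkw [ei G] * (mkw [ei E] * mkw [ei F]) := rfl
    rw [this, mul_assoc, mul_assoc, cF', ← mul_assoc (mkw [ei E]), cE', mul_assoc, ← mul_assoc (mkw [ei G]), cG']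
  · intro m
    rw [mkw_append, mkw_append, ← mul_assoc, sw_EF hab hac hbc haE hbE hcE nE haF hbF hcF nF, mul_assoc]
    congr 1
    exact sw_eg haG hbG hcG hab hac hbc nG
  · refine ⟨?_, by rw [remP, rEF]⟩
    have : vl ([ei G, ei E, ei F] : List (Idem (PM n))) = Es G * Es E * Es F := by
      rw [vl_cons, vl_cons, vl_singleton, coe_ei, coe_ei, coe_ei, mul_assoc]
    rw [this]
    have := rk_mul_le_left (Es G * Es E) (Es F)
    omega
  · show LEq _ _
    rw [remP]
    have : vl ([ei E, ei F] : List (Idem (PM n))) = Es E * Es F := by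
      rw [vl_cons, vl_singleton, coe_ei, coe_ei]
    rw [this]
    exact LEq.refl _
  · have : vl ([ei E, ei F] : List (Idem (PM n))) = Es (E ∩ F) := by
      rw [vl_cons, vl_singleton, coe_ei, coe_ei, Es_mul]
    rw [this, vl_swW]
    exact sw_ne hab hac hbc ⟨haE, haF⟩
  · intro m w hw
    apply window (red_EF hNRxy hNRyx hNRyg hNRgx m) (length_EF _ _ m) (r := n - 3)
    · rw [vl_singleton, coe_ei, rG]
    · rw [vl_singleton, coe_ei, rE]; omega
    · have : vl ([ei E] ++ ([ei F] ++ (EF (ei E) (ei F) m).flatten)) =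
          Es (E ∩ F) * vl (EF (ei E) (ei F) m).flatten := by
        rw [vl_append, vl_append, vl_singleton, vl_singleton, coe_ei, coe_ei, ← mul_assoc, Es_mul]
      rw [this, Es_mul_EF Set.inter_subset_left Set.inter_subset_right, ← Es_mul, rEF]
    · rw [hw]
      congr 1
      simp

theorem special (hn : 5 ≤ n) : Spec n := by
  classical
  obtain ⟨a, b, c, d, h, hab, hac, had, hah, hbc, hbd, hbh, hcd, hch, hdh⟩ : ∃ a b c d h : Fin n,
      a ≠ b ∧ a ≠ c ∧ a ≠ d ∧ a ≠ h ∧ b ≠ c ∧ b ≠ d ∧ b ≠ h ∧ c ≠ d ∧ c ≠ h ∧ d ≠ h := by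
    refine ⟨⟨0, by omega⟩, ⟨1, by omega⟩, ⟨2, by omega⟩, ⟨3, by omega⟩, ⟨4, by omega⟩, ?_, ?_, ?_, ?_, ?_, ?_,
      ?_, ?_, ?_, ?_⟩ <;> simp [Fin.ext_iff]
  have mulE : ∀ X Y : Finset (Fin n), Es ((X : Set (Fin n))ᶜ) * Es ((Y : Set (Fin n))ᶜ) =
      Es (((X ∪ Y : Finset (Fin n)) : Set (Fin n))ᶜ) := by
    intro X Y; rw [Es_mul, Finset.coe_union, Set.compl_union]
  have cG : ({a, b, c} : Finset (Fin n)).card = 3 := by
    rw [Finset.card_eq_three]; exact ⟨a, b, c, hab, hac, hbc, rfl⟩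
  have cE : ({c, d} : Finset (Fin n)).card = 2 := Finset.card_pair hcd
  have cF : ({c, h} : Finset (Fin n)).card = 2 := Finset.card_pair hch
  have cEF : (({c, d} : Finset (Fin n)) ∪ {c, h}).card = 3 := by
    have : ({c, d} : Finset (Fin n)) ∪ {c, h} = {c, d, h} := by
      ext k; simp only [Finset.mem_union, Finset.mem_insert, Finset.mem_singleton]; tauto
    rw [this, Finset.card_eq_three]; exact ⟨c, d, h, hcd, hch, hdh, rfl⟩
  have cGE : (({a, b, c} : Finset (Fin n)) ∪ {c, d}).card = 4 := by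
    have : ({a, b, c} : Finset (Fin n)) ∪ {c, d} = insert d {a, b, c} := by
      ext k; simp only [Finset.mem_union, Finset.mem_insert, Finset.mem_singleton]; tauto
    rw [this, Finset.card_insert_of_notMem, cG]
    simp only [Finset.mem_insert, Finset.mem_singleton]
    push Not
    exact ⟨had.symm, hbd.symm, hcd.symm⟩
  have cGF : (({a, b, c} : Finset (Fin n)) ∪ {c, h}).card = 4 := by
    have : ({a, b, c} : Finset (Fin n)) ∪ {c, h} = insert h {a, b, c} := by
      ext k; simp only [Finset.mem_union, Finset.mem_insert, Finset.mem_singleton]; tauto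
    rw [this, Finset.card_insert_of_notMem, cG]
    simp only [Finset.mem_insert, Finset.mem_singleton]
    push Not
    exact ⟨hah.symm, hbh.symm, hch.symm⟩
  apply special_aux (a := a) (b := b) (c := c) (G := (({a, b, c} : Finset (Fin n)) : Set (Fin n))ᶜ)
    (E := (({c, d} : Finset (Fin n)) : Set (Fin n))ᶜ) (F := (({c, h} : Finset (Fin n)) : Set (Fin n))ᶜ) hn hab hac hbc
  · rw [rk_Es_compl, cG]
  · rw [rk_Es_compl, cE]
  · rw [rk_Es_compl, cF]
  · rw [mulE, rk_Es_compl, cEF]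
  · rw [mulE, rk_Es_compl, cGE]
  · rw [mulE, rk_Es_compl, cGF]
  · simp
  · simp
  · simp
  · simp [hac, had]
  · simp [hbc, hbd]
  · simp
  · simp [hac, hah]
  · simp [hbc, hbh]
  · simp

end Pool.Agent.Helper9.RW
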