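import Pool.Agent.Helper9.RW.Lab

set_option autoImplicit false

/-!
# Many good prefixes
-/

namespace Pool.Agent.Helper9.RW

open Pool.Agent.H213 RkMonoid Relation

variable {S : Type*} [RkMonoid S]

theorem remv_consume (r : ℕ) (v : List (Idem S)) : ∀ (u : List (Idem S)) (s : S), r ≤ rk (s * vl u) →
    remv r s (u ++ v) = remv r (s * vl u) v
  | [], s, _ => by simp
  | a :: u, s, h => by
    have h' : r ≤ rk (s * (a : S)) := by
      rw [vl_cons, ← mul_assoc] at h
      exact h.trans (rk_mul_le_left _ _)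
    simp only [List.cons_append, remv]
    rw [if_pos h', remv_consume r v u (s * (a : S)) (by rw [vl_cons, ← mul_assoc] at h; exact h), vl_cons,
      mul_assoc]

theorem remv_split (r : ℕ) : ∀ (u : List (Idem S)) (s : S), r ≤ rk s → rk (s * vl u) < r →
    ∃ u' u'', u = u' ++ u'' ∧ r ≤ rk (s * vl u') ∧ ∀ v, remv r s (u ++ v) = vl (u'' ++ v)
  | [], s, h, h' => by rw [vl_nil, mul_one] at h'; omega
  | a :: u, s, h, h' => by
    by_cases h1 : r ≤ rk (s * (a : S))
    · obtain ⟨u', u'', e, h2, h3⟩ := remv_split r u (s * (a : S)) h1 (by rw [vl_cons, ← mul_assoc] at h'; exact h')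
      refine ⟨a :: u', u'', by rw [e]; rfl, by rw [vl_cons, ← mul_assoc]; exact h2, fun v => ?_⟩
      simp only [List.cons_append, remv]
      rw [if_pos h1, h3]
    · refine ⟨[], a :: u, rfl, by rw [vl_nil, mul_one]; exact h, fun v => ?_⟩
      simp only [List.cons_append, remv]
      rw [if_neg h1, vl_cons]

theorem gd_of {r : ℕ} {u1 u2 u3 p' q' : List (Idem S)} (hr1 : rk (vl u1) = r) (hu2 : RegW u2)
    (h12 : NR (vl u1) (vl u2)) (h23 : NR (vl u2) (vl u3)) (hr2 : rk (vl u2) ≤ r + 1)
    (hm : r ≤ rk (vl (u2 ++ (u3 ++ (p' ++ q'))))) : gd r (u1 ++ (u2 ++ (u3 ++ p'))) := by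
  have hlt : rk (vl u1 * vl u2) < r := hr1 ▸ h12.1
  constructor
  · calc rk (vl (u1 ++ (u2 ++ (u3 ++ p')))) = rk (vl u1 * vl u2 * vl (u3 ++ p')) := by
          simp [mul_assoc]
      _ ≤ rk (vl u1 * vl u2) := rk_mul_le_left _ _
      _ < r := hlt
  · rw [remv_consume r _ u1 1 (by rw [one_mul]; exact hr1.ge), one_mul]
    obtain ⟨u', u'', e, h1, h2⟩ := remv_split r u2 (vl u1) hr1.ge hlt
    rw [h2]
    have h1' : rk (vl u1 * vl u') = r := le_antisymm (hr1 ▸ rk_mul_le_left _ _) h1
    obtain ⟨x, hx, hxr⟩ := hu2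
    have e2 : vl u2 = vl u' * vl u'' := by rw [e, vl_append]
    have hx'' : x ∈ u'' := by
      rw [e] at hx
      rcases List.mem_append.1 hx with h | h
      · exfalso
        have h3 : rk (vl u' * vl u'') = rk (vl u') := by
          apply le_antisymm (rk_mul_le_left _ _)
          rw [← e2, hxr]; exact rk_vl_le h
        have h4 := rk_mul_left_congr h3 (vl u1)
        rw [← e2, h1'] at h4
        omega
      · exact h
    have h5 : rk (vl u' * vl u'') = rk (vl u'') := by
      apply le_antisymm (rk_mul_le_right _ _)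
      rw [← e2, hxr]; exact rk_vl_le hx''
    have h6 := rk_mul_right_congr h5 (vl u3)
    rw [← e2] at h6
    apply le_antisymm
    · calc rk (vl (u'' ++ (u3 ++ p'))) = rk (vl u'' * vl u3 * vl p') := by simp [mul_assoc]
        _ ≤ rk (vl u'' * vl u3) := rk_mul_le_left _ _
        _ ≤ r := by rw [← h6]; have := h23.1; omega
    · calc r ≤ rk (vl (u2 ++ (u3 ++ (p' ++ q')))) := hm
        _ = rk (vl u' * (vl (u'' ++ (u3 ++ p')) * vl q')) := by rw [e]; simp [mul_assoc]
        _ ≤ rk (vl (u'' ++ (u3 ++ p')) * vl q') := rk_mul_le_right _ _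
        _ ≤ _ := rk_mul_le_left _ _

/-- invariants of a list of elements of `IG` -/
def Inv3 (X Y : List (IG S)) : Prop :=
  X.length = Y.length ∧ X.map (fun x => rk (val x)) = Y.map (fun x => rk (val x)) ∧
    (3 ≤ X.length → rk ((X.tail.dropLast.map val).prod) = rk ((Y.tail.dropLast.map val).prod))

theorem inv3_refl (X : List (IG S)) : Inv3 X X := ⟨rfl, rfl, fun _ => rfl⟩
theorem Inv3.symm {X Y : List (IG S)} (h : Inv3 X Y) : Inv3 Y X :=
  ⟨h.1.symm, h.2.1.symm, fun h3 => (h.2.2 (h.1 ▸ h3)).symm⟩
theorem Inv3.trans {X Y Z : List (IG S)} (h : Inv3 X Y) (h' : Inv3 Y Z) : Inv3 X Z :=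
  ⟨h.1.trans h'.1, h.2.1.trans h'.2.1, fun h3 => (h.2.2 h3).trans (h'.2.2 (h.1 ▸ h3))⟩

theorem mv_inv3 {X Y : List (IG S)} (h : MvStep X Y) : Inv3 X Y := by
  obtain ⟨l, r, x, y, e, _, _, h1, h2, rfl, rfl⟩ := h
  refine ⟨by simp, by simp [h1, h2], fun h3 => ?_⟩
  rcases List.eq_nil_or_concat r with rfl | ⟨r', b, rfl⟩
  · cases l with
    | nil => simp at h3
    | cons a l =>
      have e1 : ((a :: l) ++ [x * io e, y] ++ ([] : List (IG S))).tail.dropLast = l ++ [x * io e] := by
        simp [List.dropLast_append]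
      have e2 : ((a :: l) ++ [x, io e * y] ++ ([] : List (IG S))).tail.dropLast = l ++ [x] := by
        simp [List.dropLast_append]
      rw [e1, e2]
      simp only [List.map_append, List.map_cons, List.map_nil, List.prod_append, List.prod_cons,
        List.prod_nil, mul_one, map_mul, val_io]
      exact rk_mul_left_congr h1 _
  · cases l with
    | nil =>
      have e1 : (([] : List (IG S)) ++ [x * io e, y] ++ (r' ++ [b])).tail.dropLast = y :: r' := by
        simp [List.dropLast_append]
        rw [← List.cons_append, List.dropLast_concat]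
      have e2 : (([] : List (IG S)) ++ [x, io e * y] ++ (r' ++ [b])).tail.dropLast = (io e * y) :: r' := by
        simp [List.dropLast_append]
        rw [← List.cons_append, List.dropLast_concat]
      rw [List.concat_eq_append, e1, e2]
      simp only [List.map_cons, List.prod_cons, map_mul, val_io]
      exact (rk_mul_right_congr h2 _).symm
    | cons a l =>
      have e1 : ((a :: l) ++ [x * io e, y] ++ (r' ++ [b])).tail.dropLast = l ++ [x * io e, y] ++ r' := by
        rw [List.cons_append, List.cons_append, List.tail_cons, ← List.append_assoc, List.dropLast_concat]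
      have e2 : ((a :: l) ++ [x, io e * y] ++ (r' ++ [b])).tail.dropLast = l ++ [x, io e * y] ++ r' := by
        rw [List.cons_append, List.cons_append, List.tail_cons, ← List.append_assoc, List.dropLast_concat]
      rw [List.concat_eq_append, e1, e2]
      simp [mul_assoc]

theorem eqv_inv3 {X Y : List (IG S)} (h : EqvGen MvStep X Y) : Inv3 X Y := by
  induction h with
  | rel X Y h => exact mv_inv3 h
  | refl X => exact inv3_refl X
  | symm X Y _ ih => exact ih.symm
  | trans X Y Z _ _ ih1 ih2 => exact ih1.trans ih2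

theorem prod_map_val_mkw (U : List (List (Idem S))) : ((U.map mkw).map val).prod = vl U.flatten := by
  rw [← map_list_prod, ← mkw_flatten, vl_eq]

theorem length_flatten_ge {U : List (List (Idem S))} (h : ∀ u ∈ U, u ≠ []) : U.length ≤ U.flatten.length := by
  induction U with
  | nil => simp
  | cons u U ih =>
    have h1 := ih (fun v hv => h v (List.mem_cons_of_mem _ hv))
    have h2 : 0 < u.length := List.length_pos_iff.2 (h u (by simp))
    rw [List.flatten_cons, List.length_append, List.length_cons]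
    omega

/-- A window of good prefixes in every word of the class. -/
theorem window {r m : ℕ} {v1 v2 v3 z0 : List (Idem S)} {M0 : List (List (Idem S))}
    (hred : RedW (v1 :: v2 :: v3 :: (M0 ++ [z0]))) (hm : M0.length = m) (h1 : rk (vl v1) = r)
    (h2 : rk (vl v2) ≤ r + 1) (h3 : r ≤ rk (vl (v2 ++ (v3 ++ M0.flatten))))
    {w : List (Idem S)} (hw : mkw w = mkw (v1 :: v2 :: v3 :: (M0 ++ [z0])).flatten) :
    ∃ a b : ℕ, a + m ≤ b ∧ b ≤ w.length ∧ ∀ i, a ≤ i → i ≤ b → gd r (w.take i) := by
  have hE : EqvGen MvStep ((redF w).map mkw) ((v1 :: v2 :: v3 :: (M0 ++ [z0])).map mkw) :=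
    (red_of_eqvGen (mkw_eq_iff.1 hw)).trans _ _ _ (red_unique (redF_spec _).1 hred (redF_spec _).2)
  obtain ⟨i1, i2, i3⟩ := eqv_inv3 hE
  obtain ⟨hR, hfl⟩ := redF_spec w
  have hlen : (redF w).length = m + 4 := by
    rw [List.length_map, List.length_map] at i1
    rw [i1, ← hm]; simp
  generalize redF w = U at *
  -- decompose U
  match U, hlen with
  | u1 :: u2 :: u3 :: U', hlen =>
    have hU' : U' ≠ [] := by rintro rfl; simp at hlen
    obtain ⟨M, z, rfl⟩ : ∃ M z, U' = M ++ [z] := ⟨U'.dropLast, U'.getLast hU', (List.dropLast_append_getLast hU').symm⟩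
    have hM : M.length = m := by simp at hlen; omega
    have i2' := i2
    simp only [List.map_cons, List.cons.injEq, ← vl_eq] at i2'
    obtain ⟨r1, r2, r3, _⟩ := i2'
    have i3' := i3 (by simp)
    have e1 : ((u1 :: u2 :: u3 :: (M ++ [z])).map mkw).tail.dropLast = (u2 :: u3 :: M).map mkw := by
      simp only [List.map_cons, List.map_append, List.tail_cons, List.map_nil]
      rw [← List.cons_append, ← List.cons_append, List.dropLast_concat]
    have e2 : ((v1 :: v2 :: v3 :: (M0 ++ [z0])).map mkw).tail.dropLast = (v2 :: v3 :: M0).map mkw := by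
      simp only [List.map_cons, List.map_append, List.tail_cons, List.map_nil]
      rw [← List.cons_append, ← List.cons_append, List.dropLast_concat]
    rw [e1, e2, prod_map_val_mkw, prod_map_val_mkw] at i3'
    have hch := hR.2
    rw [List.isChain_cons_cons, List.isChain_cons_cons] at hch
    have hne : ∀ u ∈ M, u ≠ [] := fun u hu => (hR.1 u (by simp [hu])).ne_nil
    have hMl := length_flatten_ge hne
    have hwfl : w = u1 ++ (u2 ++ (u3 ++ (M.flatten ++ z))) := by rw [← hfl]; simp
    refine ⟨(u1 ++ (u2 ++ u3)).length, (u1 ++ (u2 ++ u3)).length + M.flatten.length, by omega, ?_, ?_⟩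
    · rw [hwfl]; simp; omega
    · intro i hi1 hi2
      have ht : w.take i = u1 ++ (u2 ++ (u3 ++ M.flatten.take (i - (u1 ++ (u2 ++ u3)).length))) := by
        have e3 : w = (u1 ++ (u2 ++ u3)) ++ (M.flatten ++ z) := by rw [hwfl]; simp
        rw [e3, List.take_append, List.take_of_length_le hi1, List.take_append_of_le_length (by omega)]
        simp
      rw [ht]
      apply gd_of (q' := M.flatten.drop (i - (u1 ++ (u2 ++ u3)).length)) (r1.trans h1)
        (hR.1 u2 (by simp)) hch.1 hch.2.1 (r2.trans_le h2)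
      rw [List.take_append_drop]
      have e4 : (u2 ++ (u3 ++ M.flatten)) = (u2 :: u3 :: M).flatten := by simp
      have e5 : (v2 ++ (v3 ++ M0.flatten)) = (v2 :: v3 :: M0).flatten := by simp
      rw [e4, i3', ← e5]
      exact h3

end Pool.Agent.Helper9.RW
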