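import Pool.Agent.Helper9.RW.Cnt
import Pool.Graph.R_pool_sql_team_seeded_620a6dc7.helper213_IG_.F3

set_option autoImplicit false

/-!
# Special elements
-/

namespace Pool.Agent.Helper9.RW

open Pool.Agent.H213 RkMonoid Relation PM Module

variable {n : ℕ}

theorem rk_Es (A : Set (Fin n)) : rk (Es A) = Nat.card A := by
  classical
  have := Fintype.ofFinite A
  have h1 : (Es A).dom = ⊤ := by
    rw [eq_top_iff]
    intro f _
    exact mem_dom_Es f
  have h2 : (Es A).ker = LinearMap.ker (LinearMap.funLeft (ZMod 2) (ZMod 2) (Subtype.val : A → Fin n)) := by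
    ext f
    rw [mem_ker_Es, LinearMap.mem_ker]
    constructor
    · intro h
      ext k
      exact h k k.2
    · intro h i hi
      exact congrFun h ⟨i, hi⟩
  show (Es A).rank = _
  unfold rank
  rw [h1, h2]
  have h3 := LinearMap.finrank_range_add_finrank_ker
    (LinearMap.funLeft (ZMod 2) (ZMod 2) (Subtype.val : A → Fin n))
  rw [LinearMap.range_eq_top.2 (LinearMap.funLeft_surjective_of_injective _ _ _ Subtype.val_injective)] at h3
  rw [finrank_top] at h3 ⊢
  have h4 : finrank (ZMod 2) (A → ZMod 2) = Nat.card A := by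
    rw [Module.finrank_fintype_fun_eq_card, Nat.card_eq_fintype_card]
  have h5 : finrank (ZMod 2) (A → ZMod 2) + finrank (ZMod 2) (LinearMap.ker
    (LinearMap.funLeft (ZMod 2) (ZMod 2) (Subtype.val : A → Fin n))) = finrank (ZMod 2) (Vec n) := h3
  rw [h4] at h5
  have h6 : finrank (ZMod 2) (Fin n → ZMod 2) = finrank (ZMod 2) (Vec n) := rfl
  rw [h6]
  exact Nat.sub_eq_of_eq_add h5.symm

theorem rk_Es_compl (X : Finset (Fin n)) : rk (Es ((X : Set (Fin n))ᶜ)) = n - X.card := by
  rw [rk_Es]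
  have : ((X : Set (Fin n))ᶜ) = ((Xᶜ : Finset (Fin n)) : Set (Fin n)) := by simp
  rw [this, Nat.card_coe_set_eq, Set.ncard_coe_finset, Finset.card_compl, Fintype.card_fin]

/-- exchanging the points `a` and `b` with the help of the free point `c` -/
def sw (a b c : Fin n) : PM n := ss c * (tt a c * ss a) * (tt b a * ss b) * (tt c b * ss c)

theorem mem_C_sw {a b c : Fin n} (hab : a ≠ b) (hac : a ≠ c) (hbc : b ≠ c) {f g : Vec n} :
    (f, g) ∈ (sw a b c).C ↔ g b = f a ∧ g a = f b ∧ ∀ k, k ≠ a → k ≠ b → k ≠ c → f k = g k := by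
  classical
  unfold sw
  rw [mem_C_mul]
  simp only [mem_C_b]
  constructor
  · rintro ⟨h3, H, h4, h5⟩
    rw [mem_C_mul] at H
    obtain ⟨h2, H, H2⟩ := H
    rw [mem_C_b] at H2
    obtain ⟨h6, h7⟩ := H2
    rw [mem_C_mul] at H
    obtain ⟨h1, H, H1⟩ := H
    rw [mem_C_b] at H1
    obtain ⟨h8, h9⟩ := H1
    rw [mem_C_ss] at H
    refine ⟨?_, ?_, ?_⟩
    · rw [← h4 b hbc, ← h5, ← h6 c hbc.symm, ← h8 c hac.symm, ← h9, ← H a hac]
    · rw [← h4 a hac, ← h6 a hab, ← h7, ← h8 b hab.symm, ← H b hbc]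
    · intro k hka hkb hkc
      rw [H k hkc, h8 k hka, h6 k hkb, h4 k hkc]
  · rintro ⟨h1, h2, h3⟩
    refine ⟨Function.update (Function.update (Function.update f c (f a)) a (f b)) b (f a), ?_, ?_, ?_⟩
    · rw [mem_C_mul]
      refine ⟨Function.update (Function.update f c (f a)) a (f b), ?_, ?_⟩
      · rw [mem_C_mul]
        refine ⟨Function.update f c (f a), ?_, ?_⟩
        · rw [mem_C_ss]
          intro k hk
          rw [Function.update_of_ne hk]
        · rw [mem_C_b]
          refine ⟨?_, ?_⟩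
          · intro k hk; rw [Function.update_of_ne hk]
          · rw [Function.update_of_ne hac, Function.update_self]
      · rw [mem_C_b]
        refine ⟨?_, ?_⟩
        · intro k hk; rw [Function.update_of_ne hk]
        · rw [Function.update_of_ne hab.symm, Function.update_of_ne hbc, Function.update_self]
    · intro k hk
      by_cases hkb : k = b
      · rw [hkb, Function.update_self, h1]
      · rw [Function.update_of_ne hkb]
        by_cases hka : k = a
        · rw [hka, Function.update_self, h2]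
        · rw [Function.update_of_ne hka, Function.update_of_ne hk, h3 k hka hkb hk]
    · rw [Function.update_self, Function.update_of_ne hbc.symm, Function.update_of_ne hac.symm,
        Function.update_self]

/-- composition on both sides with `Es A`, `a, b ∈ A`, `c ∉ A` -/
theorem sw_comm {a b c : Fin n} (hab : a ≠ b) (hac : a ≠ c) (hbc : b ≠ c) {A : Set (Fin n)}
    (ha : a ∈ A) (hb : b ∈ A) (hc : c ∉ A) : Es A * sw a b c = sw a b c * Es A := by
  classical
  apply ext_C; intro f g
  rw [mem_C_mul, mem_C_mul]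
  simp only [mem_C_sw hab hac hbc, mem_C_Es]
  constructor
  · rintro ⟨h, h1, h2, h3, h4⟩
    refine ⟨fun k => if k = a then f b else if k = b then f a else f k, ⟨?_, ?_, ?_⟩, ?_⟩
    · simp [hab.symm]
    · simp
    · intro k hka hkb hkc; simp [hka, hkb]
    · intro k hk
      by_cases hka : k = a
      · subst hka; simp; rw [h3, h1 b hb]
      by_cases hkb : k = b
      · subst hkb; simp [hka]; rw [h2, h1 a ha]
      simp only [hka, hkb, if_false]
      rw [h1 k hk, h4 k hka hkb (fun h => hc (h ▸ hk))]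
  · rintro ⟨h, ⟨h1, h2, h3⟩, h4⟩
    refine ⟨fun k => if k = a then f a else if k = b then f b else g k, ?_, ?_, ?_, ?_⟩
    · intro k hk
      by_cases hka : k = a
      · subst hka; simp
      by_cases hkb : k = b
      · subst hkb; simp [hka]
      simp only [hka, hkb, if_false]
      rw [← h4 k hk, h3 k hka hkb (fun h => hc (h ▸ hk))]
    · simp; rw [← h4 b hb, h1]
    · simp [hab.symm]; rw [← h4 a ha, h2]
    · intro k hka hkb hkc; simp [hka, hkb]

/-- `a, b, c ∉ A` -/
theorem sw_left {a b c : Fin n} (hab : a ≠ b) (hac : a ≠ c) (hbc : b ≠ c) {A : Set (Fin n)}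
    (ha : a ∉ A) (hb : b ∉ A) (hc : c ∉ A) : sw a b c * Es A = Es A := by
  classical
  apply ext_C; intro f g
  rw [mem_C_mul]
  simp only [mem_C_sw hab hac hbc, mem_C_Es]
  constructor
  · rintro ⟨h, ⟨h1, h2, h3⟩, h4⟩ k hk
    rw [← h4 k hk]
    exact h3 k (fun h => ha (h ▸ hk)) (fun h => hb (h ▸ hk)) (fun h => hc (h ▸ hk))
  · intro h
    refine ⟨fun k => if k = a then f b else if k = b then f a else f k, ⟨?_, ?_, ?_⟩, ?_⟩
    · simp [hab.symm]
    · simp
    · intro k hka hkb hkc; simp [hka, hkb]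
    · intro k hk
      have hka : k ≠ a := fun h => ha (h ▸ hk)
      have hkb : k ≠ b := fun h => hb (h ▸ hk)
      simp only [hka, hkb, if_false]
      exact h k hk

theorem sw_sw {a b c : Fin n} (hab : a ≠ b) (hac : a ≠ c) (hbc : b ≠ c) {A : Set (Fin n)}
    (hc : c ∉ A) : sw a b c * (sw a b c * Es A) = Es A := by
  classical
  apply ext_C; intro f g
  rw [← mul_assoc, mem_C_mul]
  simp only [mem_C_mul, mem_C_sw hab hac hbc, mem_C_Es]
  constructor
  · rintro ⟨h, ⟨h', ⟨h1, h2, h3⟩, h4, h5, h6⟩, h7⟩ k hk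
    rw [← h7 k hk]
    by_cases hka : k = a
    · subst hka; rw [h5, h1]
    by_cases hkb : k = b
    · subst hkb; rw [h4, h2]
    have hkc : k ≠ c := fun h => hc (h ▸ hk)
    rw [h3 k hka hkb hkc, h6 k hka hkb hkc]
  · intro h
    refine ⟨f, ⟨fun k => if k = a then f b else if k = b then f a else f k, ⟨?_, ?_, ?_⟩, ?_, ?_, ?_⟩, h⟩
    · simp [hab.symm]
    · simp
    · intro k hka hkb hkc; simp [hka, hkb]
    · simp
    · simp [hab.symm]
    · intro k hka hkb hkc; simp [hka, hkb]

theorem tw_sw {a b c : Fin n} (hab : a ≠ b) (hac : a ≠ c) (hbc : b ≠ c) {A : Set (Fin n)}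
    (hc : c ∉ A) : tw (Es A) (sw a b c) = tw (sw a b c) (Es A) := by
  classical
  have h1 : ((Es A).cok ⊓ (sw a b c).ker : Submodule (ZMod 2) (Vec n)) = (sw a b c).cok ⊓ (Es A).ker := by
    ext f
    rw [Submodule.mem_inf, Submodule.mem_inf, mem_cok, mem_ker, mem_cok, mem_ker]
    simp only [mem_C_sw hab hac hbc, mem_C_Es, Pi.zero_apply]
    constructor
    · rintro ⟨h1, h2, h3, h4⟩
      refine ⟨⟨h3.symm, h2.symm, fun k hka hkb hkc => (h4 k hka hkb hkc).symm⟩, fun k hk => (h1 k hk).symm⟩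
    · rintro ⟨⟨h1, h2, h3⟩, h4⟩
      exact ⟨fun k hk => (h4 k hk).symm, h2.symm, h1.symm, fun k hka hkb hkc => (h3 k hka hkb hkc).symm⟩
  unfold tw
  rw [h1]

theorem sw_ne {a b c : Fin n} (hab : a ≠ b) (hac : a ≠ c) (hbc : b ≠ c) {A : Set (Fin n)}
    (ha : a ∈ A) : Es A * sw a b c ≠ Es A := by
  classical
  intro h
  have h1 : ((fun k => if k = b then 1 else 0 : Vec n), (fun k => if k = b then 1 else 0 : Vec n)) ∈ (Es A).C := by
    rw [mem_C_Es]; intro i _; rfl
  rw [← h, mem_C_mul] at h1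
  obtain ⟨h', h2, h3⟩ := h1
  rw [mem_C_Es] at h2
  rw [mem_C_sw hab hac hbc] at h3
  have h4 := h2 a ha
  have h5 := h3.1
  rw [← h4] at h5
  simp [hab] at h5

/-- the word exchanging `a` and `b` -/
def swW (a b c : Fin n) : List (Idem (PM n)) := [si c, bi a c, bi b a, bi c b]

theorem vl_swW (a b c : Fin n) : vl (swW a b c) = sw a b c := by
  simp [swW, sw, mul_assoc]

theorem val_swW (a b c : Fin n) : val (mkw (swW a b c)) = sw a b c := by rw [← vl_eq, vl_swW]

theorem reg_sw_left {a b c : Fin n} (hab : a ≠ b) (hac : a ≠ c) (hbc : b ≠ c) {A : Set (Fin n)}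
    (hc : c ∉ A) : Reg (mkw (swW a b c) * eg A) := by
  apply reg_mul_left (reg_io _)
  rw [val_swW]
  apply le_antisymm (rk_mul_le_right _ _)
  have := rk_mul_le_right (sw a b c) (sw a b c * Es A)
  rw [sw_sw hab hac hbc hc] at this
  simpa using this

/-- right absorption -/
theorem eg_sw {a b c : Fin n} {A : Set (Fin n)} (ha : a ∉ A) (hb : b ∉ A) (hc : c ∉ A) (hab : a ≠ b)
    (hac : a ≠ c) (hbc : b ≠ c) : eg A * mkw (swW a b c) = eg A := by
  classical
  have key : ∀ i j : Fin n, i ∉ A → j ∉ A → i ≠ j → eg A * io (bi i j) = eg A := by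
    intro i j hi hj hij
    apply io_mul_left
    show Es A * (tt i j * ss i) = Es A
    apply ext_C; intro f g
    rw [mem_C_mul]
    simp only [mem_C_b, mem_C_Es]
    constructor
    · rintro ⟨h, h1, h2, h3⟩ k hk
      rw [h1 k hk, h2 k (fun h => hi (h ▸ hk))]
    · intro h
      refine ⟨fun k => if k = i then g j else g k, ?_, ?_, ?_⟩
      · intro k hk
        have : k ≠ i := fun h => hi (h ▸ hk)
        simp [this, h k hk]
      · intro k hk; simp [hk]
      · simp [hij.symm]
  have hs : eg A * io (si c) = eg A := io_mul_left (Es_mul_ss hc)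
  unfold swW
  rw [mkw_cons, mkw_cons, mkw_cons, ← mul_assoc, ← mul_assoc, ← mul_assoc, hs, key a c ha hc hac,
    key b a hb ha hab.symm]
  exact key c b hc hb hbc.symm

theorem W_sw_one {a b c : Fin n} {A : Set (Fin n)} (ha : a ∉ A) (hb : b ∉ A) (hc : c ∉ A) (hab : a ≠ b)
    (hac : a ≠ c) (hbc : b ≠ c) : W (mkw (swW a b c)) * cst (Es A) (sw a b c) = 1 := by
  have h := congrArg W (eg_sw ha hb hc hab hac hbc)
  rw [W_mul, val_eg, val_swW, mul_assoc] at h
  have h0 := (W_pos (eg A)).ne'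
  exact mul_left_cancel₀ h0 (by rw [h, mul_one])

/-- left absorption -/
theorem sw_eg {a b c : Fin n} {A : Set (Fin n)} (ha : a ∉ A) (hb : b ∉ A) (hc : c ∉ A) (hab : a ≠ b)
    (hac : a ≠ c) (hbc : b ≠ c) (hn : Nat.card A + 2 ≤ n) : mkw (swW a b c) * eg A = eg A := by
  apply F3 (reg_sw_left hab hac hbc hc) (show Reg (eg A) from reg_io _)
  · rw [map_mul, val_swW, val_eg, sw_left hab hac hbc ha hb hc, rk_Es]; exact hn
  · rw [map_mul, val_swW, val_eg, sw_left hab hac hbc ha hb hc]
  · rw [W_mul, val_swW, val_eg]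
    have h1 : cst (sw a b c) (Es A) = cst (Es A) (sw a b c) := by unfold cst; rw [tw_sw hab hac hbc hc]
    have h2 := W_sw_one ha hb hc hab hac hbc
    rw [h1]
    calc W (mkw (swW a b c)) * W (eg A) * cst (Es A) (sw a b c)
        = W (eg A) * (W (mkw (swW a b c)) * cst (Es A) (sw a b c)) := by ring
      _ = W (eg A) := by rw [h2, mul_one]

/-- commutation -/
theorem sw_comm_IG {a b c : Fin n} {A : Set (Fin n)} (ha : a ∈ A) (hb : b ∈ A) (hc : c ∉ A) (hab : a ≠ b)
    (hac : a ≠ c) (hbc : b ≠ c) (hn : Nat.card A + 2 ≤ n) :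
    eg A * mkw (swW a b c) = mkw (swW a b c) * eg A := by
  have hr : rk (sw a b c * Es A) = rk (Es A) := by
    apply le_antisymm (rk_mul_le_right _ _)
    have := rk_mul_le_right (sw a b c) (sw a b c * Es A)
    rwa [sw_sw hab hac hbc hc] at this
  apply F3
  · apply (reg_io _).mul_right
    rw [val_swW]
    show rk (val (eg A) * _) = rk (val (eg A))
    rw [val_eg, sw_comm hab hac hbc ha hb hc, hr]
  · exact reg_sw_left hab hac hbc hc
  · rw [map_mul, val_swW, val_eg, sw_comm hab hac hbc ha hb hc, hr, rk_Es]; exact hn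
  · rw [map_mul, map_mul, val_swW, val_eg, sw_comm hab hac hbc ha hb hc]
  · rw [W_mul, W_mul, val_swW, val_eg]
    unfold cst
    rw [tw_sw hab hac hbc hc]
    ring

end Pool.Agent.Helper9.RW
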