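import Pool.Graph.R_pool_sql_team_seeded_620a6dc7.helper213_IG_.Words

set_option autoImplicit false

/-!
# Labels of prefixes
-/

namespace Pool.Agent.Helper9.RW

open Pool.Agent.H213 RkMonoid Relation

variable {S : Type*} [RkMonoid S]

/-- L-equivalence -/
def LEq (x y : S) : Prop := (∃ u, x = u * y) ∧ (∃ u, y = u * x)

theorem LEq.refl (x : S) : LEq x x := ⟨⟨1, by simp⟩, ⟨1, by simp⟩⟩
theorem LEq.symm {x y : S} (h : LEq x y) : LEq y x := ⟨h.2, h.1⟩
theorem LEq.trans {x y z : S} (h : LEq x y) (h' : LEq y z) : LEq x z := by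
  obtain ⟨⟨a, ha⟩, ⟨b, hb⟩⟩ := h
  obtain ⟨⟨c, hc⟩, ⟨d, hd⟩⟩ := h'
  exact ⟨⟨a * c, by rw [ha, hc, mul_assoc]⟩, ⟨d * b, by rw [hd, hb, mul_assoc]⟩⟩
theorem LEq.mul_right {x y : S} (h : LEq x y) (z : S) : LEq (x * z) (y * z) := by
  obtain ⟨⟨a, ha⟩, ⟨b, hb⟩⟩ := h
  exact ⟨⟨a, by rw [← mul_assoc, ← ha]⟩, ⟨b, by rw [← mul_assoc, ← hb]⟩⟩
theorem LEq.rk {x y : S} (h : LEq x y) : rk x = rk y := by
  obtain ⟨⟨a, ha⟩, ⟨b, hb⟩⟩ := h
  apply le_antisymm
  · rw [ha]; exact rk_mul_le_right _ _
  · rw [hb]; exact rk_mul_le_right _ _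

open Classical in
/-- value of the remainder of a word after its longest prefix of rank at least `r` -/
noncomputable def remv (r : ℕ) : S → List (Idem S) → S
  | _, [] => 1
  | s, a :: p => if r ≤ rk (s * (a : S)) then remv r (s * (a : S)) p else (a : S) * vl p

theorem basic_drop {a b : S} (ha : a * a = a) (hb : b * b = b) (h : Basic a b) (s : S)
    (hr : rk (s * (a * b)) < rk (s * a)) : LEq b (a * b) := by
  rcases h with h | h | h | h
  · rw [h] at hr; exact absurd hr (lt_irrefl _)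
  · rw [h]; exact LEq.refl _
  · exfalso
    have e : s * a = s * (a * b) * a := by
      rw [mul_assoc, mul_assoc, h, ha]
    have : rk (s * a) ≤ rk (s * (a * b)) := by
      conv_lhs => rw [e]
      exact rk_mul_le_left _ _
    omega
  · exact ⟨⟨b, by rw [← mul_assoc, h, hb]⟩, ⟨a, rfl⟩⟩

theorem remv_step (r : ℕ) {a b c : Idem S} (hb : Basic (a : S) (b : S)) (hc : (a : S) * (b : S) = c)
    (q : List (Idem S)) : ∀ (p : List (Idem S)) (s : S),
      LEq (remv r s (p ++ [a, b] ++ q)) (remv r s (p ++ [c] ++ q))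
  | [], s => by
    simp only [List.nil_append, List.cons_append, remv]
    have e : s * (c : S) = s * (a : S) * (b : S) := by rw [← hc, mul_assoc]
    by_cases h1 : r ≤ rk (s * (a : S) * (b : S))
    · have h2 : r ≤ rk (s * (a : S)) := h1.trans (rk_mul_le_left _ _)
      rw [if_pos h2, if_pos h1, if_pos (by rw [e]; exact h1), e]
      exact LEq.refl _
    · rw [if_neg h1, if_neg (by rw [e]; exact h1 : ¬ r ≤ rk (s * (c : S)))]
      by_cases h2 : r ≤ rk (s * (a : S))
      · rw [if_pos h2, ← hc]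
        apply LEq.mul_right
        apply basic_drop a.2 b.2 hb s
        rw [← mul_assoc]; omega
      · rw [if_neg h2, vl_cons, ← mul_assoc, hc]
        exact LEq.refl _
  | x :: p, s => by
    have hv := vl_step (p := p) (q := q) hc
    simp only [List.cons_append, remv]
    split_ifs with h
    · exact remv_step r hb hc q p (s * (x : S))
    · rw [hv]; exact LEq.refl _

theorem remv_eqv (r : ℕ) {u v : List (Idem S)} (h : mkw u = mkw v) : LEq (remv r 1 u) (remv r 1 v) := by
  have h1 := mkw_eq_iff.1 h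
  clear h
  induction h1 with
  | rel x y h =>
    obtain ⟨p, q, a, b, c, hb, hc, rfl, rfl⟩ := h
    exact remv_step r hb hc q p 1
  | refl x => exact LEq.refl _
  | symm x y _ ih => exact ih.symm
  | trans x y z _ _ ih1 ih2 => exact ih1.trans ih2

theorem remv_append (r : ℕ) (z : List (Idem S)) : ∀ (p : List (Idem S)) (s : S), rk (s * vl p) < r →
    remv r s (p ++ z) = remv r s p * vl z
  | [], s, h => by
    rw [vl_nil, mul_one] at h
    cases z with
    | nil => simp [remv]
    | cons a z =>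
      have : ¬ r ≤ rk (s * (a : S)) := by
        have := rk_mul_le_left s (a : S)
        omega
      simp [remv, this]
  | x :: p, s, h => by
    simp only [List.cons_append, remv]
    split_ifs with h1
    · exact remv_append r z p (s * (x : S)) (by rw [vl_cons, ← mul_assoc] at h; exact h)
    · rw [vl_append, mul_assoc]

/-- good prefixes -/
def gd (r : ℕ) (p : List (Idem S)) : Prop := rk (vl p) < r ∧ rk (remv r 1 p) = r

/-- labels of a prefix -/
def lab (r : ℕ) (p : List (Idem S)) : Set S := {y | LEq y (remv r 1 p)}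

theorem gd_congr (r : ℕ) {u v : List (Idem S)} (h : mkw u = mkw v) : gd r u ↔ gd r v := by
  unfold gd
  rw [(remv_eqv r h).rk, vl_eq, vl_eq, h]

theorem lab_congr (r : ℕ) {u v : List (Idem S)} (h : mkw u = mkw v) : lab r u = lab r v := by
  ext y
  exact ⟨fun hy => hy.trans (remv_eqv r h), fun hy => hy.trans (remv_eqv r h).symm⟩

theorem lab_maps {r : ℕ} {p z : List (Idem S)} (hp : gd r p) {y : S} (hy : y ∈ lab r p) :
    y * vl z ∈ lab r (p ++ z) := by
  change LEq _ _
  rw [remv_append r z p 1 (by rw [one_mul]; exact hp.1)]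
  exact LEq.mul_right hy _

theorem exists_back {r : ℕ} {p z : List (Idem S)} (hp : gd r p) (hz : gd r (p ++ z)) :
    ∃ w, remv r 1 p * vl z * w = remv r 1 p := by
  apply ex_right
  have := hz.2
  rw [remv_append r z p 1 (by rw [one_mul]; exact hp.1)] at this
  rw [this, hp.2]

theorem lab_inj {r : ℕ} {p z : List (Idem S)} (hp : gd r p) (hz : gd r (p ++ z)) {y y' : S}
    (hy : y ∈ lab r p) (hy' : y' ∈ lab r p) (h : y * vl z = y' * vl z) : y = y' := by
  obtain ⟨w, hw⟩ := exists_back hp hz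
  have key : ∀ x ∈ lab r p, x * vl z * w = x := by
    rintro x ⟨⟨a, ha⟩, _⟩
    rw [ha, mul_assoc, mul_assoc, ← mul_assoc (remv r 1 p), hw]
  rw [← key y hy, h, key y' hy']

theorem lab_surj {r : ℕ} {p z : List (Idem S)} (hp : gd r p) (hz : gd r (p ++ z)) {δ : S}
    (hδ : δ ∈ lab r (p ++ z)) : ∃ γ ∈ lab r p, γ * vl z = δ := by
  obtain ⟨w, hw⟩ := exists_back hp hz
  obtain ⟨⟨a, ha⟩, ⟨b, hb⟩⟩ := hδ
  have e := remv_append r z p 1 (by rw [one_mul]; exact hp.1)
  rw [e] at ha hb
  refine ⟨a * remv r 1 p, ⟨⟨a, rfl⟩, ⟨b, ?_⟩⟩, by rw [ha, mul_assoc]⟩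
  calc remv r 1 p = remv r 1 p * vl z * w := hw.symm
    _ = b * δ * w := by rw [hb]
    _ = b * (a * (remv r 1 p * vl z)) * w := by rw [ha]
    _ = b * (a * (remv r 1 p * vl z * w)) := by simp only [mul_assoc]
    _ = b * (a * remv r 1 p) := by rw [hw]

theorem remv_mem_lab (r : ℕ) (p : List (Idem S)) : remv r 1 p ∈ lab r p := LEq.refl _

end Pool.Agent.Helper9.RW
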