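import Pool.Agent.Helper9.RW.Elt
import Pool.Agent.Helper9.RW.Abs

set_option autoImplicit false

/-!
# Positions in words over an arbitrary generating set, and the covering
-/

namespace Pool.Agent.Helper9.RW

open Pool.Agent.H213 RkMonoid Relation PM

section Positions

variable {A B : Type*} (η : A → List B)

theorem flatMap_take_prefix (w : List A) (i : ℕ) :
    (w.take i).flatMap η = (w.flatMap η).take ((w.take i).flatMap η).length := by
  conv_rhs => rw [← List.take_append_drop i w, List.flatMap_append]
  rw [List.take_append_drop, List.take_left']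
  rfl

theorem len_succ (c : ℕ) (hc : ∀ a, (η a).length ≤ c) (w : List A) (i : ℕ) :
    ((w.take (i + 1)).flatMap η).length ≤ ((w.take i).flatMap η).length + c := by
  by_cases h : i < w.length
  · rw [List.take_succ_eq_append_getElem h, List.flatMap_append, List.length_append]
    simp
    exact hc _
  · rw [List.take_of_length_le (by omega), List.take_of_length_le (by omega)]
    omega

theorem len_add (c : ℕ) (hc : ∀ a, (η a).length ≤ c) (w : List A) (i j : ℕ) :
    ((w.take (i + j)).flatMap η).length ≤ ((w.take i).flatMap η).length + c * j := by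
  induction j with
  | zero => simp
  | succ j ih =>
    have := len_succ η c hc w (i + j)
    rw [← add_assoc, mul_add, mul_one]
    omega

theorem exists_positions (c L : ℕ) (hc1 : 1 ≤ c) (hc : ∀ a, (η a).length ≤ c) (w : List A) {a b : ℕ}
    (hab : a + c * (2 * L + 2) ≤ b) (hb : b ≤ (w.flatMap η).length) :
    ∃ i0, ∀ j, j ≤ 2 * L → i0 + j ≤ w.length ∧ a ≤ ((w.take (i0 + j)).flatMap η).length ∧
      ((w.take (i0 + j)).flatMap η).length ≤ b := by
  classical
  have hex : ∃ i, a ≤ ((w.take i).flatMap η).length :=
    ⟨w.length, by rw [List.take_length]; omega⟩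
  let i0 := Nat.find hex
  have h0 : a ≤ ((w.take i0).flatMap η).length := Nat.find_spec hex
  have h1 : ((w.take i0).flatMap η).length ≤ a + c := by
    rcases Nat.eq_zero_or_pos i0 with h | h
    · rw [h]; simp
    · have h2 : ¬ a ≤ ((w.take (i0 - 1)).flatMap η).length := Nat.find_min hex (by omega)
      have h3 := len_succ η c hc w (i0 - 1)
      rw [Nat.sub_add_cancel h] at h3
      omega
  have hmono : ∀ i j, i ≤ j → ((w.take i).flatMap η).length ≤ ((w.take j).flatMap η).length := by
    intro i j hij
    have : w.take i = (w.take j).take i := by rw [List.take_take, min_eq_left hij]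
    rw [this, flatMap_take_prefix η (w.take j) i]
    rw [List.length_take]; exact min_le_right _ _
  refine ⟨i0, fun j hj => ?_⟩
  have h4 := len_add η c hc w i0 j
  have h5 : c * j ≤ c * (2 * L) := Nat.mul_le_mul_left c hj
  have h6 : c * (2 * L + 2) = c * (2 * L) + c * 2 := mul_add _ _ _
  refine ⟨?_, h0.trans (hmono _ _ (by omega)), by omega⟩
  by_contra hcon
  push Not at hcon
  rw [List.take_of_length_le hcon.le] at h4
  omega

end Positions

/-- choosing a position outside two intervals -/
theorem exists_outside (i0 L a b a' b' : ℕ) (h1 : b ≤ a + L) (h2 : b' ≤ a' + L) :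
    ∃ j, j ≤ 2 * L ∧ (i0 + j ≤ a ∨ b ≤ i0 + j) ∧ (i0 + j ≤ a' ∨ b' ≤ i0 + j) := by
  by_cases c1 : (i0 ≤ a ∨ b ≤ i0)
  · by_cases c2 : (i0 ≤ a' ∨ b' ≤ i0)
    · exact ⟨0, by omega, by simpa using c1, by simpa using c2⟩
    · -- a' < i0 < b'
      by_cases c3 : (b' ≤ a ∨ b ≤ b')
      · exact ⟨b' - i0, by omega, by omega, by omega⟩
      · exact ⟨b - i0, by omega, by omega, by omega⟩
  · by_cases c3 : (b ≤ a' ∨ b' ≤ b)
    · exact ⟨b - i0, by omega, by omega, by omega⟩
    · exact ⟨b' - i0, by omega, by omega, by omega⟩

theorem cut_left {A : Type*} {s l t p q : List A} (h : s ++ l ++ t = p ++ q) (hi : p.length ≤ s.length) :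
    ∃ a, s = p ++ a ∧ q = a ++ l ++ t := by
  rw [List.append_assoc] at h
  rcases List.append_eq_append_iff.1 h with ⟨a, h1, h2⟩ | ⟨a, h1, h2⟩
  · -- p = s ++ a
    have : a = [] := by
      have := congrArg List.length h1
      rw [List.length_append] at this
      exact List.length_eq_zero_iff.1 (by omega)
    subst this
    exact ⟨[], by simpa using h1.symm, by simpa using h2.symm⟩
  · exact ⟨a, h1, by rw [h2]; simp⟩

theorem cut_right {A : Type*} {s l t p q : List A} (h : s ++ l ++ t = p ++ q)
    (hi : (s ++ l).length ≤ p.length) : ∃ b, p = s ++ l ++ b ∧ t = b ++ q := by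
  rcases List.append_eq_append_iff.1 h with ⟨a, h1, h2⟩ | ⟨a, h1, h2⟩
  · exact ⟨a, h1, h2⟩
  · have : a = [] := by
      have := congrArg List.length h1
      rw [List.length_append (as := p)] at this
      exact List.length_eq_zero_iff.1 (by omega)
    subst this
    exact ⟨[], by simpa using h1.symm, by simpa using h2.symm⟩

section Covering

variable {A : Type*} {S : Type*} [RkMonoid S]

/-- the covering of a rewriting system over a class with a large window -/
def mkCov (R : Set (List A × List A)) (η : A → List (Idem S)) (r : ℕ) (e : IG S) (c L M : ℕ)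
    (hR : ∀ x ∈ R, mkw (x.1.flatMap η) = mkw (x.2.flatMap η))
    (hL : ∀ x ∈ R, x.1.length ≤ L) (hc1 : 1 ≤ c) (hc : ∀ a, (η a).length ≤ c)
    (hM : c * (2 * L + 2) ≤ M)
    (hwin : ∀ w : List (Idem S), mkw w = e → ∃ a b : ℕ, a + M ≤ b ∧ b ≤ w.length ∧
      ∀ i, a ≤ i → i ≤ b → gd r (w.take i)) : Cov R S :=
  have hst : ∀ u v, Step R u v → mkw (u.flatMap η) = mkw (v.flatMap η) := by
    rintro u v ⟨s, l, r', t, h, rfl, rfl⟩
    have := hR _ h
    simp only [List.flatMap_append, mkw_append]
    rw [this]
  { K := {w | mkw (w.flatMap η) = e}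
    good := fun p => gd r (p.flatMap η)
    T := fun p => lab r (p.flatMap η)
    act := fun γ z => γ * vl (z.flatMap η)
    act_nil := by intro γ; simp
    act_append := by intro γ x y; simp [mul_assoc]
    K_step := by intro w w' h; show mkw _ = e ↔ mkw _ = e; rw [hst _ _ h]
    good_step := by intro p p' h; exact gd_congr r (hst _ _ h)
    T_step := by intro p p' h; exact lab_congr r (hst _ _ h)
    act_step := by intro z z' h γ; simp only [vl_eq]; rw [hst _ _ h]
    T_maps := by
      intro p z hp _ γ hγ
      rw [List.flatMap_append]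
      exact lab_maps hp hγ
    T_inj := by
      intro p z hp hz γ hγ γ' hγ' h
      rw [List.flatMap_append] at hz
      exact lab_inj hp hz hγ hγ' h
    T_surj := by
      intro p z hp hz δ hδ
      rw [List.flatMap_append] at hz hδ
      exact lab_surj hp hz hδ
    hcut := by
      intro s l r1 t s' l' r1' t' h1 h2 hK hw
      obtain ⟨a, b, hab, hb, hg⟩ := hwin _ hK
      obtain ⟨i0, hi0⟩ := exists_positions η c L hc1 hc (s ++ l ++ t) (a := a) (b := b) (by omega) hb
      obtain ⟨j, hj, o1, o2⟩ := exists_outside i0 L s.length (s ++ l).length s'.length (s' ++ l').length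
        (by rw [List.length_append]; have := hL _ h1; simp only at this; omega)
        (by rw [List.length_append]; have := hL _ h2; simp only at this; omega)
      obtain ⟨g1, g2, g3⟩ := hi0 j hj
      have hlen : ((s ++ l ++ t).take (i0 + j)).length = i0 + j := by
        rw [List.length_take, min_eq_left g1]
      refine ⟨(s ++ l ++ t).take (i0 + j), (s ++ l ++ t).drop (i0 + j), (List.take_append_drop _ _).symm, ?_,
        ?_, ?_⟩
      · have := hg _ g2 g3
        rw [← flatMap_take_prefix] at this
        exact this
      · rcases o1 with o | o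
        · exact Or.inl (cut_left (List.take_append_drop _ _).symm (by rw [hlen]; exact o))
        · exact Or.inr (cut_right (List.take_append_drop _ _).symm (by rw [hlen]; exact o))
      · rcases o2 with o | o
        · exact Or.inl (cut_left (by rw [← hw]; exact (List.take_append_drop _ _).symm) (by rw [hlen]; exact o))
        · exact Or.inr (cut_right (by rw [← hw]; exact (List.take_append_drop _ _).symm) (by rw [hlen]; exact o)) }

end Covering

end Pool.Agent.Helper9.RW
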